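import Pool.Agent.Lib.MP_6947cd_al.L.ReE
import Pool.Agent.Lib.MP_6947cd_al.Y.D.R0_0

/-!
Problem MP_6947cd_al (Chollet).  CASE B, large second entry: the facts of the tables, type 0.  Generated.
-/

set_option autoImplicit false
open Finset

namespace Pool.Agent.Lib.MP_6947cd_al
namespace B1
namespace D

open Ent Ent.Pk Fr Fr.WT PkA

theorem r0_170_98 : RowT rd0 ks0 170 98 5000000 (loT (prd rd0) t0_170_98) (hiT (prd rd0) t0_170_98) :=
  rowT_of_rngN (N := 185) rfl ((q0_0 RE.rcOK_rowE).1)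

theorem r0_170_130 : RowT rd0 ks0 170 130 5000000 (loT (prd rd0) t0_170_130) (hiT (prd rd0) t0_170_130) :=
  rowT_of_rngN (N := 185) rfl ((q0_0 RE.rcOK_rowE).2.1)

theorem r0_170_200 : RowT rd0 ks0 170 200 5000000 (loT (prd rd0) t0_170_200) (hiT (prd rd0) t0_170_200) :=
  rowT_of_rngN (N := 185) rfl ((q0_0 RE.rcOK_rowE).2.2.1)

theorem r0_175_130 : RowT rd0 ks0 175 130 5000000 (loT (prd rd0) t0_175_130) (hiT (prd rd0) t0_175_130) :=
  rowT_of_rngN (N := 185) rfl ((q0_0 RE.rcOK_rowE).2.2.2.1)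

theorem r0_175_200 : RowT rd0 ks0 175 200 5000000 (loT (prd rd0) t0_175_200) (hiT (prd rd0) t0_175_200) :=
  rowT_of_rngN (N := 185) rfl ((q0_0 RE.rcOK_rowE).2.2.2.2.1)

theorem r0_180_98 : RowT rd0 ks0 180 98 5000000 (loT (prd rd0) t0_180_98) (hiT (prd rd0) t0_180_98) :=
  rowT_of_rngN (N := 185) rfl ((q0_0 RE.rcOK_rowE).2.2.2.2.2.1)

theorem r0_180_130 : RowT rd0 ks0 180 130 5000000 (loT (prd rd0) t0_180_130) (hiT (prd rd0) t0_180_130) :=
  rowT_of_rngN (N := 185) rfl ((q0_0 RE.rcOK_rowE).2.2.2.2.2.2.1)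

theorem r0_180_200 : RowT rd0 ks0 180 200 5000000 (loT (prd rd0) t0_180_200) (hiT (prd rd0) t0_180_200) :=
  rowT_of_rngN (N := 185) rfl ((q0_0 RE.rcOK_rowE).2.2.2.2.2.2.2)

theorem r2_170_98 : RowT rd2 ks2 170 98 0 (loT (prd rd2) t2_170_98) (hiT (prd rd2) t2_170_98) :=
  rowT_of_rngN (N := 44) rfl ((q2_0 RE.rcOK_rowE).1)

theorem r2_170_130 : RowT rd2 ks2 170 130 0 (loT (prd rd2) t2_170_130) (hiT (prd rd2) t2_170_130) :=
  rowT_of_rngN (N := 44) rfl ((q2_0 RE.rcOK_rowE).2.1)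

theorem r2_170_200 : RowT rd2 ks2 170 200 0 (loT (prd rd2) t2_170_200) (hiT (prd rd2) t2_170_200) :=
  rowT_of_rngN (N := 44) rfl ((q2_0 RE.rcOK_rowE).2.2.1)

theorem r2_175_130 : RowT rd2 ks2 175 130 0 (loT (prd rd2) t2_175_130) (hiT (prd rd2) t2_175_130) :=
  rowT_of_rngN (N := 44) rfl ((q2_0 RE.rcOK_rowE).2.2.2.1)

theorem r2_175_200 : RowT rd2 ks2 175 200 0 (loT (prd rd2) t2_175_200) (hiT (prd rd2) t2_175_200) :=
  rowT_of_rngN (N := 44) rfl ((q2_0 RE.rcOK_rowE).2.2.2.2.1)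

theorem r2_180_98 : RowT rd2 ks2 180 98 0 (loT (prd rd2) t2_180_98) (hiT (prd rd2) t2_180_98) :=
  rowT_of_rngN (N := 44) rfl ((q2_0 RE.rcOK_rowE).2.2.2.2.2.1)

theorem r2_180_130 : RowT rd2 ks2 180 130 0 (loT (prd rd2) t2_180_130) (hiT (prd rd2) t2_180_130) :=
  rowT_of_rngN (N := 44) rfl ((q2_0 RE.rcOK_rowE).2.2.2.2.2.2.1)

theorem r2_180_200 : RowT rd2 ks2 180 200 0 (loT (prd rd2) t2_180_200) (hiT (prd rd2) t2_180_200) :=
  rowT_of_rngN (N := 44) rfl ((q2_0 RE.rcOK_rowE).2.2.2.2.2.2.2)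

theorem r100_180_98 : RowT rd100 ks100 180 98 5000000 (loT (prd rd100) t100_180_98) (hiT (prd rd100) t100_180_98) :=
  rowT_of_rngN (N := 136) rfl ((q100_0 RE.rcOK_rowE).1)

theorem r100_180_130 : RowT rd100 ks100 180 130 5000000 (loT (prd rd100) t100_180_130) (hiT (prd rd100) t100_180_130) :=
  rowT_of_rngN (N := 136) rfl ((q100_0 RE.rcOK_rowE).2.1)

theorem r100_180_200 : RowT rd100 ks100 180 200 5000000 (loT (prd rd100) t100_180_200) (hiT (prd rd100) t100_180_200) :=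
  rowT_of_rngN (N := 136) rfl ((q100_0 RE.rcOK_rowE).2.2.1)

theorem r100_190_98 : RowT rd100 ks100 190 98 5000000 (loT (prd rd100) t100_190_98) (hiT (prd rd100) t100_190_98) :=
  rowT_of_rngN (N := 136) rfl ((q100_0 RE.rcOK_rowE).2.2.2.1)

theorem r100_190_130 : RowT rd100 ks100 190 130 5000000 (loT (prd rd100) t100_190_130) (hiT (prd rd100) t100_190_130) :=
  rowT_of_rngN (N := 136) rfl ((q100_0 RE.rcOK_rowE).2.2.2.2.1)

theorem r100_190_200 : RowT rd100 ks100 190 200 5000000 (loT (prd rd100) t100_190_200) (hiT (prd rd100) t100_190_200) :=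
  rowT_of_rngN (N := 136) rfl ((q100_0 RE.rcOK_rowE).2.2.2.2.2)

theorem r102_180_98 : RowT rd102 ks102 180 98 0 (loT (prd rd102) t102_180_98) (hiT (prd rd102) t102_180_98) :=
  rowT_of_rngN (N := 64) rfl ((q102_0 RE.rcOK_rowE).1)

theorem r102_180_130 : RowT rd102 ks102 180 130 0 (loT (prd rd102) t102_180_130) (hiT (prd rd102) t102_180_130) :=
  rowT_of_rngN (N := 64) rfl ((q102_0 RE.rcOK_rowE).2.1)

theorem r102_180_200 : RowT rd102 ks102 180 200 0 (loT (prd rd102) t102_180_200) (hiT (prd rd102) t102_180_200) :=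
  rowT_of_rngN (N := 64) rfl ((q102_0 RE.rcOK_rowE).2.2.1)

theorem r102_190_98 : RowT rd102 ks102 190 98 0 (loT (prd rd102) t102_190_98) (hiT (prd rd102) t102_190_98) :=
  rowT_of_rngN (N := 64) rfl ((q102_0 RE.rcOK_rowE).2.2.2.1)

theorem r102_190_130 : RowT rd102 ks102 190 130 0 (loT (prd rd102) t102_190_130) (hiT (prd rd102) t102_190_130) :=
  rowT_of_rngN (N := 64) rfl ((q102_0 RE.rcOK_rowE).2.2.2.2.1)

theorem r102_190_200 : RowT rd102 ks102 190 200 0 (loT (prd rd102) t102_190_200) (hiT (prd rd102) t102_190_200) :=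
  rowT_of_rngN (N := 64) rfl ((q102_0 RE.rcOK_rowE).2.2.2.2.2)

theorem r200_190_130 : RowT rd200 ks200 190 130 5000000 (loT (prd rd200) t200_190_130) (hiT (prd rd200) t200_190_130) :=
  rowT_of_rngN (N := 175) rfl ((q200_0 RE.rcOK_rowE).1)

theorem r200_190_200 : RowT rd200 ks200 190 200 5000000 (loT (prd rd200) t200_190_200) (hiT (prd rd200) t200_190_200) :=
  rowT_of_rngN (N := 175) rfl ((q200_0 RE.rcOK_rowE).2.1)

theorem r200_200_130 : RowT rd200 ks200 200 130 5000000 (loT (prd rd200) t200_200_130) (hiT (prd rd200) t200_200_130) :=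
  rowT_of_rngN (N := 175) rfl ((q200_0 RE.rcOK_rowE).2.2.1)

theorem r200_200_200 : RowT rd200 ks200 200 200 5000000 (loT (prd rd200) t200_200_200) (hiT (prd rd200) t200_200_200) :=
  rowT_of_rngN (N := 175) rfl ((q200_0 RE.rcOK_rowE).2.2.2)

theorem r202_190_130 : RowT rd202 ks202 190 130 0 (loT (prd rd202) t202_190_130) (hiT (prd rd202) t202_190_130) :=
  rowT_of_rngN (N := 100) rfl ((q202_0 RE.rcOK_rowE).1)

theorem r202_190_200 : RowT rd202 ks202 190 200 0 (loT (prd rd202) t202_190_200) (hiT (prd rd202) t202_190_200) :=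
  rowT_of_rngN (N := 100) rfl ((q202_0 RE.rcOK_rowE).2.1)

theorem r202_200_130 : RowT rd202 ks202 200 130 0 (loT (prd rd202) t202_200_130) (hiT (prd rd202) t202_200_130) :=
  rowT_of_rngN (N := 100) rfl ((q202_0 RE.rcOK_rowE).2.2.1)

theorem r202_200_200 : RowT rd202 ks202 200 200 0 (loT (prd rd202) t202_200_200) (hiT (prd rd202) t202_200_200) :=
  rowT_of_rngN (N := 100) rfl ((q202_0 RE.rcOK_rowE).2.2.2)

end D
end B1
end Pool.Agent.Lib.MP_6947cd_al
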