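import Pool.Agent.Lib.MP_6947cd_al.Y.All
import Pool.Agent.Lib.MP_6947cd_al.Y.D.I10
import Pool.Agent.Lib.MP_6947cd_al.Y.D.E0

/-!
Problem MP_6947cd_al (Chollet).  CASE B, large second entry: box h in [190, 200], t in [175, 180], g in [130, 200] (unit
1/200), type 0.  Generated.
-/

set_option autoImplicit false
open Finset

namespace Pool.Agent.Lib.MP_6947cd_al
namespace B1
namespace D

open Ent Ent.Pk Fr Fr.WT PkA

/-- trees of the class 0 0 -/
def c00b4_0 : List (List Tr) :=
  [[(.lf [0, 10] [4406559909024, 4406600926848, 4407603332192, 4407795082304, 4406559909024, 4406600926848, 4407603332192, 4407795082304] [4406902930184, 4406954534494, 4408005108542, 4408083049250, 4406902930184, 4406954534494, 4408005108542, 4408083049250] 985 0 0 0 920 827 23140 855683 0 0 0 73 867796 969065)]]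

/-- trees of the class 0 1 -/
def c01b4_0 : List (List Tr) :=
  [[(.lf [0, 10] [4407577928400, 4407331687760, 4407995544224, 4408127869104, 4407577928400, 4407331687760, 4407995544224, 4408127869104] [4404501587004, 4404663199580, 4406360354240, 4406500070424, 4404501587004, 4404663199580, 4406360354240, 4406500070424] 0 1280 0 0 1196 882 19829 774643 0 0 0 1679 1876372 0),
   (.lf [0, 10] [4416391682048, 4416497689600, 4417061369856, 4417157851136, 4416391682048, 4416497689600, 4417061369856, 4417157851136] [0, 0, 0, 0, 0, 0, 0, 0] 0 0 0 0 0 0 0 0 0 0 0 0 1876372 0)]]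

/-- trees of the class 1 0 -/
def c10b4_0 : List (List Tr) :=
  [[(.sK 249
  (.lf [0, 10] [4404377133000, 4404693839136, 4406078125200, 4406343680056, 4404377133000, 4404693839136, 4406078125200, 4406343680056] [4408481817387, 4408554070827, 4409425709056, 4409491123200, 4408481817387, 4408554070827, 4409425709056, 4409491123200] 0 0 0 0 658 0 374848 1982409 0 0 0 0 0 2290048)
  (.sJ 114
  (.sS 5
  (.lf [0, 5] [4404302506537, 4404614764336, 4405979861400, 4406240914932, 4404302506537, 4404614764336, 4405979861400, 4406240914932] [4403821171465, 4403882500785, 4404747635380, 4404886625424, 4403821171465, 4403882500785, 4404747635380, 4404886625424] 0 0 1978 0 627 1661 633753 1004743 0 0 0 2966 0 2257023)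
  (.lf [5, 10] [4404377133000, 4404693839136, 4406078125200, 4406343680056, 4404377133000, 4404693839136, 4406078125200, 4406343680056] [4403891832639, 4403957570008, 4404804825172, 4404942782736, 4403891832639, 4403957570008, 4404804825172, 4404942782736] 0 0 1949 0 658 1637 374848 1030461 0 0 0 2994 0 2142054))
  (.lf [0, 10] [0, 0, 0, 0, 0, 0, 0, 0] [4420810265088, 4420853863936, 4421385704960, 4421426046464, 4420810265088, 4420853863936, 4421385704960, 4421426046464] 0 0 0 0 0 0 0 0 0 0 0 0 0 2290048)))],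
   [(.sS 5
  (.lf [0, 5] [0, 0, 0, 0, 0, 0, 0, 0] [4420048628480, 4420093467392, 4420639493888, 4420680880896, 4420048628480, 4420093467392, 4420639493888, 4420680880896] 0 0 0 0 0 0 0 0 0 0 0 0 0 2257023)
  (.lf [5, 10] [4394315647680, 4394791228656, 4396445276512, 4396773178128, 4394315647680, 4394791228656, 4396445276512, 4396773178128] [4408484244184, 4408380973561, 4408986936601, 4409032999593, 4408484244184, 4408380973561, 4408986936601, 4409032999593] 0 0 1402 0 1366 1177 16000000 551731 0 0 0 2154 0 2142054))]]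

/-- trees of the class 1 1 -/
def c11b4_0 : List (List Tr) :=
  [[(.lf [0, 10] [4404465071476, 4404773929396, 4406000182772, 4406230969920, 4404465071476, 4404773929396, 4406000182772, 4406230969920] [4404810104252, 4404978380716, 4406614401644, 4406733705364, 4404810104252, 4404978380716, 4406614401644, 4406733705364] 0 0 0 0 624 959 330314 169839 0 0 0 0 0 0),
   (.lf [0, 10] [4405620232192, 4405799200768, 4406677713920, 4406829540352, 4405620232192, 4405799200768, 4406677713920, 4406829540352] [0, 0, 0, 0, 0, 0, 0, 0] 0 0 0 0 0 0 0 0 0 0 0 0 0 0)],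
   [(.lf [0, 10] [4394567288448, 4394931748416, 4396293597696, 4396556077696, 4394567288448, 4394931748416, 4396293597696, 4396556077696] [4404810104252, 4404978380716, 4406614401644, 4406733705364, 4404810104252, 4404978380716, 4406614401644, 4406733705364] 0 0 0 0 944 959 16000000 169839 0 0 0 0 0 0),
   (.lf [0, 10] [4405865167360, 4406041336320, 4406908635648, 4407058466304, 4405865167360, 4406041336320, 4406908635648, 4407058466304] [0, 0, 0, 0, 0, 0, 0, 0] 0 0 0 0 0 0 0 0 0 0 0 0 0 0)]]

/-- the data -/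
def b4_0 : BX where
  cI := [(ti10_190_175_0, 365, 0), (ti10_200_175_0, 375, 0), (ti10_190_180_0, 370, 0), (ti10_200_180_0, 380, 0), (ti10_190_175_0, 365, 0), (ti10_200_175_0, 375, 0), (ti10_190_180_0, 370, 0), (ti10_200_180_0, 380, 0)]
  kj := 60
  kk := 102
  Pj := [⟨⟨rd200, ks200, Ps200, 0, [t200_190_130, t200_200_130, t200_190_200, t200_200_200]⟩, 0, 1480⟩]
  Pk := [⟨⟨rd0, ks0, Ps0, 0, [t0_175_130, t0_180_130, t0_175_200, t0_180_200]⟩, 0, 1480⟩]
  Bj := [⟨⟨rd202, ks202, Ps202, 0, [t202_190_130, t202_200_130, t202_190_200, t202_200_200]⟩, 0, 550⟩,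
    ⟨⟨rd200, ks200, Ps200, 1, [t200_190_130, t200_200_130, t200_190_200, t200_200_200]⟩, 550, 1480⟩]
  Bk := [⟨⟨rd2, ks2, Ps2, 0, [t2_175_130, t2_180_130, t2_175_200, t2_180_200]⟩, 0, 600⟩,
    ⟨⟨rd0, ks0, Ps0, 1, [t0_175_130, t0_180_130, t0_175_200, t0_180_200]⟩, 600, 1480⟩]
  tj := [(10, [0, 10])]
  tk := [(10, [0, 10])]
  nt := []
  c00 := c00b4_0
  c01 := c01b4_0
  c10 := c10b4_0
  c11 := c11b4_0

theorem okb4_0 : b4_0.OK 0 190 200 175 180 130 200 where
  cI := by
    refine ⟨?_, rfl⟩
    intro bh bt bx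
    cases bh <;> cases bt <;> cases bx
    · exact ⟨rfl, rfl, ri10_190_175_0⟩
    · exact ⟨rfl, rfl, ri10_190_175_0⟩
    · exact ⟨rfl, rfl, ri10_190_180_0⟩
    · exact ⟨rfl, rfl, ri10_190_180_0⟩
    · exact ⟨rfl, rfl, ri10_200_175_0⟩
    · exact ⟨rfl, rfl, ri10_200_175_0⟩
    · exact ⟨rfl, rfl, ri10_200_180_0⟩
    · exact ⟨rfl, rfl, ri10_200_180_0⟩
  Pj := by
    intro p hp
    simp only [b4_0, List.mem_cons, List.not_mem_nil, or_false] at hp
    subst hp
    exact edOK cnt200 kn200 r200_190_130 r200_200_130 r200_190_200 r200_200_200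
  Pk := by
    intro p hp
    simp only [b4_0, List.mem_cons, List.not_mem_nil, or_false] at hp
    subst hp
    exact edOK cnt0 kn0_175 r0_175_130 r0_180_130 r0_175_200 r0_180_200
  Bj := by
    intro p hp
    simp only [b4_0, List.mem_cons, List.not_mem_nil, or_false] at hp
    rcases hp with rfl | rfl
    · exact edOK cnt202 kn202 r202_190_130 r202_200_130 r202_190_200 r202_200_200
    · exact edOK cnt200 kn200 (r200_190_130.mono (Nat.zero_le _)) (r200_200_130.mono (Nat.zero_le _)) (r200_190_200.mono (Nat.zero_le _))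
        (r200_200_200.mono (Nat.zero_le _))
  Bk := by
    intro p hp
    simp only [b4_0, List.mem_cons, List.not_mem_nil, or_false] at hp
    rcases hp with rfl | rfl
    · exact edOK cnt2 kn2_175 r2_175_130 r2_180_130 r2_175_200 r2_180_200
    · exact edOK cnt0 kn0_175 (r0_175_130.mono (Nat.zero_le _)) (r0_180_130.mono (Nat.zero_le _)) (r0_175_200.mono (Nat.zero_le _))
        (r0_180_200.mono (Nat.zero_le _))

theorem pb4_0 (bj bk : Bool) : Prob bj bk 190 200 175 180 130 200 0 :=
  probC (A := 256) (O := 4398046511104) okb4_0 (by decide +kernel) bj bk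

end D
end B1
end Pool.Agent.Lib.MP_6947cd_al
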