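import Pool.Agent.Lib.MP_6947cd_al.Y.All
import Pool.Agent.Lib.MP_6947cd_al.Y.D.I10
import Pool.Agent.Lib.MP_6947cd_al.Y.D.E0

/-!
Problem MP_6947cd_al (Chollet).  CASE B, large second entry: box h in [190, 200], t in [190, 200], g in [130, 200] (unit
1/200), type 0.  Generated.
-/

set_option autoImplicit false
open Finset

namespace Pool.Agent.Lib.MP_6947cd_al
namespace B1
namespace D

open Ent Ent.Pk Fr Fr.WT PkA

/-- trees of the class 0 0 -/
def c00b6_0 : List (List Tr) :=
  [[(.lf [0, 10] [4406545155120, 4406618091216, 4407619275856, 4407810727904, 4406545155120, 4406618091216, 4407619275856, 4407810727904] [4406545155120, 4406618091216, 4407619275856, 4407810727904, 4406545155120, 4406618091216, 4407619275856, 4407810727904] 981 0 0 0 916 916 23226 23226 0 0 0 68 948103 948103)]]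

/-- trees of the class 0 1 -/
def c01b6_0 : List (List Tr) :=
  [[(.lf [0, 10] [4407906202764, 4407649014188, 4408159721976, 4408422187564, 4407906202764, 4407649014188, 4408159721976, 4408422187564] [4404302506537, 4404614764336, 4405979861400, 4406240914932, 4404302506537, 4404614764336, 4405979861400, 4406240914932] 0 1376 0 0 1285 627 18403 633753 0 0 0 1995 2172449 0),
   (.lf [0, 10] [4407858252576, 4407766928544, 4408277554496, 4408382368736, 4407858252576, 4407766928544, 4408277554496, 4408382368736] [4394347283296, 4394805116216, 4396413084464, 4396730478280, 4394347283296, 4394805116216, 4396413084464, 4396730478280] 0 1362 0 0 1272 1283 18488 16000000 0 0 0 1975 2172449 0)]]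

/-- trees of the class 1 0 -/
def c10b6_0 : List (List Tr) :=
  [[(.lf [0, 10] [4404302506537, 4404614764336, 4405979861400, 4406240914932, 4404302506537, 4404614764336, 4405979861400, 4406240914932] [4407906202764, 4407649014188, 4408159721976, 4408422187564, 4407906202764, 4407649014188, 4408159721976, 4408422187564] 0 0 1376 0 627 1285 633753 18403 0 0 0 1995 0 2172449)],
   [(.lf [0, 10] [4394347283296, 4394805116216, 4396413084464, 4396730478280, 4394347283296, 4394805116216, 4396413084464, 4396730478280] [4407858252576, 4407766928544, 4408277554496, 4408382368736, 4407858252576, 4407766928544, 4408277554496, 4408382368736] 0 0 1362 0 1283 1272 16000000 18488 0 0 0 1975 0 2172449)]]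

/-- trees of the class 1 1 -/
def c11b6_0 : List (List Tr) :=
  [[(.lf [0, 10] [4404465071476, 4404773929396, 4406000182772, 4406230969920, 4404465071476, 4404773929396, 4406000182772, 4406230969920] [4404465071476, 4404773929396, 4406000182772, 4406230969920, 4404465071476, 4404773929396, 4406000182772, 4406230969920] 0 0 0 0 624 624 330314 330314 0 0 0 0 0 0),
   (.lf [0, 10] [4404465071476, 4404773929396, 4406000182772, 4406230969920, 4404465071476, 4404773929396, 4406000182772, 4406230969920] [4394567288448, 4394931748416, 4396293597696, 4396556077696, 4394567288448, 4394931748416, 4396293597696, 4396556077696] 0 0 0 0 624 944 330314 16000000 0 0 0 0 0 0)],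
   [(.lf [0, 10] [4394567288448, 4394931748416, 4396293597696, 4396556077696, 4394567288448, 4394931748416, 4396293597696, 4396556077696] [4404465071476, 4404773929396, 4406000182772, 4406230969920, 4404465071476, 4404773929396, 4406000182772, 4406230969920] 0 0 0 0 944 624 16000000 330314 0 0 0 0 0 0),
   (.lf [0, 10] [4394567288448, 4394931748416, 4396293597696, 4396556077696, 4394567288448, 4394931748416, 4396293597696, 4396556077696] [4394567288448, 4394931748416, 4396293597696, 4396556077696, 4394567288448, 4394931748416, 4396293597696, 4396556077696] 0 0 0 0 944 944 16000000 16000000 0 0 0 0 0 0)]]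

/-- the data -/
def b6_0 : BX where
  cI := [(ti10_190_190_0, 380, 0), (ti10_200_190_0, 390, 0), (ti10_190_200_0, 390, 0), (ti10_200_200_0, 400, 0), (ti10_190_190_0, 380, 0), (ti10_200_190_0, 390, 0), (ti10_190_200_0, 390, 0), (ti10_200_200_0, 400, 0)]
  kj := 60
  kk := 60
  Pj := [⟨⟨rd200, ks200, Ps200, 0, [t200_190_130, t200_200_130, t200_190_200, t200_200_200]⟩, 0, 1480⟩]
  Pk := [⟨⟨rd200, ks200, Ps200, 0, [t200_190_130, t200_200_130, t200_190_200, t200_200_200]⟩, 0, 1480⟩]
  Bj := [⟨⟨rd202, ks202, Ps202, 0, [t202_190_130, t202_200_130, t202_190_200, t202_200_200]⟩, 0, 550⟩,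
    ⟨⟨rd200, ks200, Ps200, 1, [t200_190_130, t200_200_130, t200_190_200, t200_200_200]⟩, 550, 1480⟩]
  Bk := [⟨⟨rd202, ks202, Ps202, 0, [t202_190_130, t202_200_130, t202_190_200, t202_200_200]⟩, 0, 550⟩,
    ⟨⟨rd200, ks200, Ps200, 1, [t200_190_130, t200_200_130, t200_190_200, t200_200_200]⟩, 550, 1480⟩]
  tj := [(10, [0, 10])]
  tk := [(10, [0, 10])]
  nt := []
  c00 := c00b6_0
  c01 := c01b6_0
  c10 := c10b6_0
  c11 := c11b6_0

theorem okb6_0 : b6_0.OK 0 190 200 190 200 130 200 where
  cI := by
    refine ⟨?_, rfl⟩
    intro bh bt bx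
    cases bh <;> cases bt <;> cases bx
    · exact ⟨rfl, rfl, ri10_190_190_0⟩
    · exact ⟨rfl, rfl, ri10_190_190_0⟩
    · exact ⟨rfl, rfl, ri10_190_200_0⟩
    · exact ⟨rfl, rfl, ri10_190_200_0⟩
    · exact ⟨rfl, rfl, ri10_200_190_0⟩
    · exact ⟨rfl, rfl, ri10_200_190_0⟩
    · exact ⟨rfl, rfl, ri10_200_200_0⟩
    · exact ⟨rfl, rfl, ri10_200_200_0⟩
  Pj := by
    intro p hp
    simp only [b6_0, List.mem_cons, List.not_mem_nil, or_false] at hp
    subst hp
    exact edOK cnt200 kn200 r200_190_130 r200_200_130 r200_190_200 r200_200_200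
  Pk := by
    intro p hp
    simp only [b6_0, List.mem_cons, List.not_mem_nil, or_false] at hp
    subst hp
    exact edOK cnt200 kn200 r200_190_130 r200_200_130 r200_190_200 r200_200_200
  Bj := by
    intro p hp
    simp only [b6_0, List.mem_cons, List.not_mem_nil, or_false] at hp
    rcases hp with rfl | rfl
    · exact edOK cnt202 kn202 r202_190_130 r202_200_130 r202_190_200 r202_200_200
    · exact edOK cnt200 kn200 (r200_190_130.mono (Nat.zero_le _)) (r200_200_130.mono (Nat.zero_le _)) (r200_190_200.mono (Nat.zero_le _))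
        (r200_200_200.mono (Nat.zero_le _))
  Bk := by
    intro p hp
    simp only [b6_0, List.mem_cons, List.not_mem_nil, or_false] at hp
    rcases hp with rfl | rfl
    · exact edOK cnt202 kn202 r202_190_130 r202_200_130 r202_190_200 r202_200_200
    · exact edOK cnt200 kn200 (r200_190_130.mono (Nat.zero_le _)) (r200_200_130.mono (Nat.zero_le _)) (r200_190_200.mono (Nat.zero_le _))
        (r200_200_200.mono (Nat.zero_le _))

theorem pb6_0 (bj bk : Bool) : Prob bj bk 190 200 190 200 130 200 0 :=
  probC (A := 256) (O := 4398046511104) okb6_0 (by decide +kernel) bj bk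

end D
end B1
end Pool.Agent.Lib.MP_6947cd_al
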