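import Pool.Agent.Lib.MP_6947cd_al.Y.All
import Pool.Agent.Lib.MP_6947cd_al.Y.D.I10
import Pool.Agent.Lib.MP_6947cd_al.Y.D.E0

/-!
Problem MP_6947cd_al (Chollet).  CASE B, large second entry: box h in [170, 180], t in [170, 180], g in [98, 200] (unit
1/200), type 0.  Generated.
-/

set_option autoImplicit false
open Finset

namespace Pool.Agent.Lib.MP_6947cd_al
namespace B1
namespace D

open Ent Ent.Pk Fr Fr.WT PkA

/-- trees of the class 0 0 -/
def c00b0_0 : List (List Tr) :=
  [[(.lf [0, 10] [4407461313304, 4407603234430, 4408970069782, 4409122877518, 4407461313304, 4407603234430, 4408970069782, 4409122877518] [4407461313304, 4407603234430, 4408970069782, 4409122877518, 4407461313304, 4407603234430, 4408970069782, 4409122877518] 803 0 0 0 650 650 123221 123221 0 0 0 60 893092 893092)]]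

/-- trees of the class 0 1 -/
def c01b0_0 : List (List Tr) :=
  [[(.lf [0, 10] [4409370848436, 4409214124566, 4410124932276, 4410231623732, 4409370848436, 4409214124566, 4410124932276, 4410231623732] [4403769095660, 4404177354232, 4406872564948, 4407176701484, 4403769095660, 4404177354232, 4406872564948, 4407176701484] 0 1161 0 0 939 1105 1402843 246142 0 0 0 1648 2010425 0),
   (.lf [0, 10] [4418439977472, 4418537879040, 4419337707008, 4419424441856, 4418439977472, 4418537879040, 4419337707008, 4419424441856] [0, 0, 0, 0, 0, 0, 0, 0] 0 0 0 0 0 0 0 0 0 0 0 0 2010425 0)]]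

/-- trees of the class 1 0 -/
def c10b0_0 : List (List Tr) :=
  [[(.lf [0, 10] [4403769095660, 4404177354232, 4406872564948, 4407176701484, 4403769095660, 4404177354232, 4406872564948, 4407176701484] [4409370848436, 4409214124566, 4410124932276, 4410231623732, 4409370848436, 4409214124566, 4410124932276, 4410231623732] 0 0 1161 0 1105 939 246142 1402843 0 0 0 1648 0 2010425)],
   [(.lf [0, 10] [0, 0, 0, 0, 0, 0, 0, 0] [4418439977472, 4418537879040, 4419337707008, 4419424441856, 4418439977472, 4418537879040, 4419337707008, 4419424441856] 0 0 0 0 0 0 0 0 0 0 0 0 0 2010425)]]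

/-- trees of the class 1 1 -/
def c11b0_0 : List (List Tr) :=
  [[(.lf [0, 10] [4404019570104, 4404397916780, 4406498165276, 4406733705364, 4404019570104, 4404397916780, 4406498165276, 4406733705364] [4404019570104, 4404397916780, 4406498165276, 4406733705364, 4404019570104, 4404397916780, 4406498165276, 4406733705364] 0 0 0 0 959 959 169839 169839 0 0 0 0 0 0),
   (.lf [0, 10] [4405448765184, 4405630635776, 4406979565312, 4407124169472, 4405448765184, 4405630635776, 4406979565312, 4407124169472] [0, 0, 0, 0, 0, 0, 0, 0] 0 0 0 0 0 0 0 0 0 0 0 0 0 0)],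
   [(.lf [0, 10] [0, 0, 0, 0, 0, 0, 0, 0] [4405448765184, 4405630635776, 4406979565312, 4407124169472, 4405448765184, 4405630635776, 4406979565312, 4407124169472] 0 0 0 0 0 0 0 0 0 0 0 0 0 0),
   (.lf [0, 10] [0, 0, 0, 0, 0, 0, 0, 0] [0, 0, 0, 0, 0, 0, 0, 0] 0 0 0 0 0 0 0 0 0 0 0 0 0 0)]]

/-- the data -/
def b0_0 : BX where
  cI := [(ti10_170_170_0, 340, 0), (ti10_180_170_0, 350, 0), (ti10_170_180_0, 350, 0), (ti10_180_180_0, 360, 0), (ti10_170_170_0, 340, 0), (ti10_180_170_0, 350, 0), (ti10_170_180_0, 350, 0), (ti10_180_180_0, 360, 0)]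
  kj := 102
  kk := 102
  Pj := [⟨⟨rd0, ks0, Ps0, 0, [t0_170_98, t0_180_98, t0_170_200, t0_180_200]⟩, 0, 1480⟩]
  Pk := [⟨⟨rd0, ks0, Ps0, 0, [t0_170_98, t0_180_98, t0_170_200, t0_180_200]⟩, 0, 1480⟩]
  Bj := [⟨⟨rd2, ks2, Ps2, 0, [t2_170_98, t2_180_98, t2_170_200, t2_180_200]⟩, 0, 600⟩,
    ⟨⟨rd0, ks0, Ps0, 1, [t0_170_98, t0_180_98, t0_170_200, t0_180_200]⟩, 600, 1480⟩]
  Bk := [⟨⟨rd2, ks2, Ps2, 0, [t2_170_98, t2_180_98, t2_170_200, t2_180_200]⟩, 0, 600⟩,
    ⟨⟨rd0, ks0, Ps0, 1, [t0_170_98, t0_180_98, t0_170_200, t0_180_200]⟩, 600, 1480⟩]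
  tj := [(10, [0, 10])]
  tk := [(10, [0, 10])]
  nt := []
  c00 := c00b0_0
  c01 := c01b0_0
  c10 := c10b0_0
  c11 := c11b0_0

theorem okb0_0 : b0_0.OK 0 170 180 170 180 98 200 where
  cI := by
    refine ⟨?_, rfl⟩
    intro bh bt bx
    cases bh <;> cases bt <;> cases bx
    · exact ⟨rfl, rfl, ri10_170_170_0⟩
    · exact ⟨rfl, rfl, ri10_170_170_0⟩
    · exact ⟨rfl, rfl, ri10_170_180_0⟩
    · exact ⟨rfl, rfl, ri10_170_180_0⟩
    · exact ⟨rfl, rfl, ri10_180_170_0⟩
    · exact ⟨rfl, rfl, ri10_180_170_0⟩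
    · exact ⟨rfl, rfl, ri10_180_180_0⟩
    · exact ⟨rfl, rfl, ri10_180_180_0⟩
  Pj := by
    intro p hp
    simp only [b0_0, List.mem_cons, List.not_mem_nil, or_false] at hp
    subst hp
    exact edOK cnt0 kn0 r0_170_98 r0_180_98 r0_170_200 r0_180_200
  Pk := by
    intro p hp
    simp only [b0_0, List.mem_cons, List.not_mem_nil, or_false] at hp
    subst hp
    exact edOK cnt0 kn0 r0_170_98 r0_180_98 r0_170_200 r0_180_200
  Bj := by
    intro p hp
    simp only [b0_0, List.mem_cons, List.not_mem_nil, or_false] at hp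
    rcases hp with rfl | rfl
    · exact edOK cnt2 kn2 r2_170_98 r2_180_98 r2_170_200 r2_180_200
    · exact edOK cnt0 kn0 (r0_170_98.mono (Nat.zero_le _)) (r0_180_98.mono (Nat.zero_le _)) (r0_170_200.mono (Nat.zero_le _))
        (r0_180_200.mono (Nat.zero_le _))
  Bk := by
    intro p hp
    simp only [b0_0, List.mem_cons, List.not_mem_nil, or_false] at hp
    rcases hp with rfl | rfl
    · exact edOK cnt2 kn2 r2_170_98 r2_180_98 r2_170_200 r2_180_200
    · exact edOK cnt0 kn0 (r0_170_98.mono (Nat.zero_le _)) (r0_180_98.mono (Nat.zero_le _)) (r0_170_200.mono (Nat.zero_le _))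
        (r0_180_200.mono (Nat.zero_le _))

theorem pb0_0 (bj bk : Bool) : Prob bj bk 170 180 170 180 98 200 0 :=
  probC (A := 256) (O := 4398046511104) okb0_0 (by decide +kernel) bj bk

end D
end B1
end Pool.Agent.Lib.MP_6947cd_al
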