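import Pool.Agent.Lib.MP_6947cd_al.Y.All
import Pool.Agent.Lib.MP_6947cd_al.Y.D.I10
import Pool.Agent.Lib.MP_6947cd_al.Y.D.E0

/-!
Problem MP_6947cd_al (Chollet).  CASE B, large second entry: box h in [180, 190], t in [180, 190], g in [98, 200] (unit
1/200), type 0.  Generated.
-/

set_option autoImplicit false
open Finset

namespace Pool.Agent.Lib.MP_6947cd_al
namespace B1
namespace D

open Ent Ent.Pk Fr Fr.WT PkA

/-- trees of the class 0 0 -/
def c00b2_0 : List (List Tr) :=
  [[(.lf [0, 10] [4407186862728, 4407324948970, 4408679698074, 4408844017482, 4407186862728, 4407324948970, 4408679698074, 4408844017482] [4407186862728, 4407324948970, 4408679698074, 4408844017482, 4407186862728, 4407324948970, 4408679698074, 4408844017482] 765 0 0 0 666 666 111815 111815 0 0 0 55 925588 925588)]]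

/-- trees of the class 0 1 -/
def c01b2_0 : List (List Tr) :=
  [[(.lf [0, 10] [4409450574228, 4409282516840, 4410080561600, 4410184552424, 4409450574228, 4409282516840, 4410080561600, 4410184552424] [4403800491004, 4404175865872, 4406412078044, 4406696236200, 4403800491004, 4404175865872, 4406412078044, 4406696236200] 0 1196 0 0 1041 853 367508 534776 0 0 0 1715 2101919 0),
   (.lf [0, 10] [4418291345152, 4418390817536, 4419185502976, 4419273578240, 4418291345152, 4418390817536, 4419185502976, 4419273578240] [0, 0, 0, 0, 0, 0, 0, 0] 0 0 0 0 0 0 0 0 0 0 0 0 2101919 0)]]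

/-- trees of the class 1 0 -/
def c10b2_0 : List (List Tr) :=
  [[(.lf [0, 10] [4403800491004, 4404175865872, 4406412078044, 4406696236200, 4403800491004, 4404175865872, 4406412078044, 4406696236200] [4409450574228, 4409282516840, 4410080561600, 4410184552424, 4409450574228, 4409282516840, 4410080561600, 4410184552424] 0 0 1196 0 853 1041 534776 367508 0 0 0 1715 0 2101919)],
   [(.lf [0, 10] [0, 0, 0, 0, 0, 0, 0, 0] [4418291345152, 4418390817536, 4419185502976, 4419273578240, 4418291345152, 4418390817536, 4419185502976, 4419273578240] 0 0 0 0 0 0 0 0 0 0 0 0 0 2101919)]]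

/-- trees of the class 1 1 -/
def c11b2_0 : List (List Tr) :=
  [[(.lf [0, 10] [4404141236630, 4404515328858, 4406450011254, 4406689896600, 4404141236630, 4404515328858, 4406450011254, 4406689896600] [4404141236630, 4404515328858, 4406450011254, 4406689896600, 4404141236630, 4404515328858, 4406450011254, 4406689896600] 0 0 0 0 851 851 27659 27659 0 0 0 0 0 0),
   (.lf [0, 10] [4405438584576, 4405623867136, 4406947909376, 4407095275264, 4405438584576, 4405623867136, 4406947909376, 4407095275264] [0, 0, 0, 0, 0, 0, 0, 0] 0 0 0 0 0 0 0 0 0 0 0 0 0 0)],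
   [(.lf [0, 10] [0, 0, 0, 0, 0, 0, 0, 0] [4405438584576, 4405623867136, 4406947909376, 4407095275264, 4405438584576, 4405623867136, 4406947909376, 4407095275264] 0 0 0 0 0 0 0 0 0 0 0 0 0 0),
   (.lf [0, 10] [0, 0, 0, 0, 0, 0, 0, 0] [0, 0, 0, 0, 0, 0, 0, 0] 0 0 0 0 0 0 0 0 0 0 0 0 0 0)]]

/-- the data -/
def b2_0 : BX where
  cI := [(ti10_180_180_0, 360, 0), (ti10_190_180_0, 370, 0), (ti10_180_190_0, 370, 0), (ti10_190_190_0, 380, 0), (ti10_180_180_0, 360, 0), (ti10_190_180_0, 370, 0), (ti10_180_190_0, 370, 0), (ti10_190_190_0, 380, 0)]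
  kj := 60
  kk := 60
  Pj := [⟨⟨rd100, ks100, Ps100, 0, [t100_180_98, t100_190_98, t100_180_200, t100_190_200]⟩, 0, 1480⟩]
  Pk := [⟨⟨rd100, ks100, Ps100, 0, [t100_180_98, t100_190_98, t100_180_200, t100_190_200]⟩, 0, 1480⟩]
  Bj := [⟨⟨rd102, ks102, Ps102, 0, [t102_180_98, t102_190_98, t102_180_200, t102_190_200]⟩, 0, 700⟩,
    ⟨⟨rd100, ks100, Ps100, 1, [t100_180_98, t100_190_98, t100_180_200, t100_190_200]⟩, 700, 1480⟩]
  Bk := [⟨⟨rd102, ks102, Ps102, 0, [t102_180_98, t102_190_98, t102_180_200, t102_190_200]⟩, 0, 700⟩,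
    ⟨⟨rd100, ks100, Ps100, 1, [t100_180_98, t100_190_98, t100_180_200, t100_190_200]⟩, 700, 1480⟩]
  tj := [(10, [0, 10])]
  tk := [(10, [0, 10])]
  nt := []
  c00 := c00b2_0
  c01 := c01b2_0
  c10 := c10b2_0
  c11 := c11b2_0

theorem okb2_0 : b2_0.OK 0 180 190 180 190 98 200 where
  cI := by
    refine ⟨?_, rfl⟩
    intro bh bt bx
    cases bh <;> cases bt <;> cases bx
    · exact ⟨rfl, rfl, ri10_180_180_0⟩
    · exact ⟨rfl, rfl, ri10_180_180_0⟩
    · exact ⟨rfl, rfl, ri10_180_190_0⟩
    · exact ⟨rfl, rfl, ri10_180_190_0⟩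
    · exact ⟨rfl, rfl, ri10_190_180_0⟩
    · exact ⟨rfl, rfl, ri10_190_180_0⟩
    · exact ⟨rfl, rfl, ri10_190_190_0⟩
    · exact ⟨rfl, rfl, ri10_190_190_0⟩
  Pj := by
    intro p hp
    simp only [b2_0, List.mem_cons, List.not_mem_nil, or_false] at hp
    subst hp
    exact edOK cnt100 kn100 r100_180_98 r100_190_98 r100_180_200 r100_190_200
  Pk := by
    intro p hp
    simp only [b2_0, List.mem_cons, List.not_mem_nil, or_false] at hp
    subst hp
    exact edOK cnt100 kn100 r100_180_98 r100_190_98 r100_180_200 r100_190_200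
  Bj := by
    intro p hp
    simp only [b2_0, List.mem_cons, List.not_mem_nil, or_false] at hp
    rcases hp with rfl | rfl
    · exact edOK cnt102 kn102 r102_180_98 r102_190_98 r102_180_200 r102_190_200
    · exact edOK cnt100 kn100 (r100_180_98.mono (Nat.zero_le _)) (r100_190_98.mono (Nat.zero_le _)) (r100_180_200.mono (Nat.zero_le _))
        (r100_190_200.mono (Nat.zero_le _))
  Bk := by
    intro p hp
    simp only [b2_0, List.mem_cons, List.not_mem_nil, or_false] at hp
    rcases hp with rfl | rfl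
    · exact edOK cnt102 kn102 r102_180_98 r102_190_98 r102_180_200 r102_190_200
    · exact edOK cnt100 kn100 (r100_180_98.mono (Nat.zero_le _)) (r100_190_98.mono (Nat.zero_le _)) (r100_180_200.mono (Nat.zero_le _))
        (r100_190_200.mono (Nat.zero_le _))

theorem pb2_0 (bj bk : Bool) : Prob bj bk 180 190 180 190 98 200 0 :=
  probC (A := 256) (O := 4398046511104) okb2_0 (by decide +kernel) bj bk

end D
end B1
end Pool.Agent.Lib.MP_6947cd_al
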