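import Pool.Agent.Lib.MP_6947cd_al.L.ReE
import Pool.Agent.Lib.MP_6947cd_al.Y.D.R1_0

/-!
Problem MP_6947cd_al (Chollet).  CASE B, large second entry: the facts of the tables, type 1.  Generated.
-/

set_option autoImplicit false
open Finset

namespace Pool.Agent.Lib.MP_6947cd_al
namespace B1
namespace D

open Ent Ent.Pk Fr Fr.WT PkA

theorem r10_170_98 : RowT rd10 ks10 170 98 5000000 (loT (prd rd10) t10_170_98) (hiT (prd rd10) t10_170_98) :=
  rowT_of_rngN (N := 170) rfl ((q10_0 RE.rcOK_rowE).1)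

theorem r10_170_130 : RowT rd10 ks10 170 130 5000000 (loT (prd rd10) t10_170_130) (hiT (prd rd10) t10_170_130) :=
  rowT_of_rngN (N := 170) rfl ((q10_0 RE.rcOK_rowE).2.1)

theorem r10_170_200 : RowT rd10 ks10 170 200 5000000 (loT (prd rd10) t10_170_200) (hiT (prd rd10) t10_170_200) :=
  rowT_of_rngN (N := 170) rfl ((q10_0 RE.rcOK_rowE).2.2.1)

theorem r10_175_130 : RowT rd10 ks10 175 130 5000000 (loT (prd rd10) t10_175_130) (hiT (prd rd10) t10_175_130) :=
  rowT_of_rngN (N := 170) rfl ((q10_0 RE.rcOK_rowE).2.2.2.1)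

theorem r10_175_200 : RowT rd10 ks10 175 200 5000000 (loT (prd rd10) t10_175_200) (hiT (prd rd10) t10_175_200) :=
  rowT_of_rngN (N := 170) rfl ((q10_0 RE.rcOK_rowE).2.2.2.2.1)

theorem r10_180_98 : RowT rd10 ks10 180 98 5000000 (loT (prd rd10) t10_180_98) (hiT (prd rd10) t10_180_98) :=
  rowT_of_rngN (N := 170) rfl ((q10_0 RE.rcOK_rowE).2.2.2.2.2.1)

theorem r10_180_130 : RowT rd10 ks10 180 130 5000000 (loT (prd rd10) t10_180_130) (hiT (prd rd10) t10_180_130) :=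
  rowT_of_rngN (N := 170) rfl ((q10_0 RE.rcOK_rowE).2.2.2.2.2.2.1)

theorem r10_180_200 : RowT rd10 ks10 180 200 5000000 (loT (prd rd10) t10_180_200) (hiT (prd rd10) t10_180_200) :=
  rowT_of_rngN (N := 170) rfl ((q10_0 RE.rcOK_rowE).2.2.2.2.2.2.2)

theorem r12_170_98 : RowT rd12 ks12 170 98 0 (loT (prd rd12) t12_170_98) (hiT (prd rd12) t12_170_98) :=
  rowT_of_rngN (N := 55) rfl ((q12_0 RE.rcOK_rowE).1)

theorem r12_170_130 : RowT rd12 ks12 170 130 0 (loT (prd rd12) t12_170_130) (hiT (prd rd12) t12_170_130) :=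
  rowT_of_rngN (N := 55) rfl ((q12_0 RE.rcOK_rowE).2.1)

theorem r12_170_200 : RowT rd12 ks12 170 200 0 (loT (prd rd12) t12_170_200) (hiT (prd rd12) t12_170_200) :=
  rowT_of_rngN (N := 55) rfl ((q12_0 RE.rcOK_rowE).2.2.1)

theorem r12_175_130 : RowT rd12 ks12 175 130 0 (loT (prd rd12) t12_175_130) (hiT (prd rd12) t12_175_130) :=
  rowT_of_rngN (N := 55) rfl ((q12_0 RE.rcOK_rowE).2.2.2.1)

theorem r12_175_200 : RowT rd12 ks12 175 200 0 (loT (prd rd12) t12_175_200) (hiT (prd rd12) t12_175_200) :=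
  rowT_of_rngN (N := 55) rfl ((q12_0 RE.rcOK_rowE).2.2.2.2.1)

theorem r12_180_98 : RowT rd12 ks12 180 98 0 (loT (prd rd12) t12_180_98) (hiT (prd rd12) t12_180_98) :=
  rowT_of_rngN (N := 55) rfl ((q12_0 RE.rcOK_rowE).2.2.2.2.2.1)

theorem r12_180_130 : RowT rd12 ks12 180 130 0 (loT (prd rd12) t12_180_130) (hiT (prd rd12) t12_180_130) :=
  rowT_of_rngN (N := 55) rfl ((q12_0 RE.rcOK_rowE).2.2.2.2.2.2.1)

theorem r12_180_200 : RowT rd12 ks12 180 200 0 (loT (prd rd12) t12_180_200) (hiT (prd rd12) t12_180_200) :=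
  rowT_of_rngN (N := 55) rfl ((q12_0 RE.rcOK_rowE).2.2.2.2.2.2.2)

theorem r110_180_98 : RowT rd110 ks110 180 98 5000000 (loT (prd rd110) t110_180_98) (hiT (prd rd110) t110_180_98) :=
  rowT_of_rngN (N := 120) rfl ((q110_0 RE.rcOK_rowE).1)

theorem r110_180_130 : RowT rd110 ks110 180 130 5000000 (loT (prd rd110) t110_180_130) (hiT (prd rd110) t110_180_130) :=
  rowT_of_rngN (N := 120) rfl ((q110_0 RE.rcOK_rowE).2.1)

theorem r110_180_200 : RowT rd110 ks110 180 200 5000000 (loT (prd rd110) t110_180_200) (hiT (prd rd110) t110_180_200) :=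
  rowT_of_rngN (N := 120) rfl ((q110_0 RE.rcOK_rowE).2.2.1)

theorem r110_190_98 : RowT rd110 ks110 190 98 5000000 (loT (prd rd110) t110_190_98) (hiT (prd rd110) t110_190_98) :=
  rowT_of_rngN (N := 120) rfl ((q110_0 RE.rcOK_rowE).2.2.2.1)

theorem r110_190_130 : RowT rd110 ks110 190 130 5000000 (loT (prd rd110) t110_190_130) (hiT (prd rd110) t110_190_130) :=
  rowT_of_rngN (N := 120) rfl ((q110_0 RE.rcOK_rowE).2.2.2.2.1)

theorem r110_190_200 : RowT rd110 ks110 190 200 5000000 (loT (prd rd110) t110_190_200) (hiT (prd rd110) t110_190_200) :=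
  rowT_of_rngN (N := 120) rfl ((q110_0 RE.rcOK_rowE).2.2.2.2.2)

theorem r112_180_98 : RowT rd112 ks112 180 98 0 (loT (prd rd112) t112_180_98) (hiT (prd rd112) t112_180_98) :=
  rowT_of_rngN (N := 65) rfl ((q112_0 RE.rcOK_rowE).1)

theorem r112_180_130 : RowT rd112 ks112 180 130 0 (loT (prd rd112) t112_180_130) (hiT (prd rd112) t112_180_130) :=
  rowT_of_rngN (N := 65) rfl ((q112_0 RE.rcOK_rowE).2.1)

theorem r112_180_200 : RowT rd112 ks112 180 200 0 (loT (prd rd112) t112_180_200) (hiT (prd rd112) t112_180_200) :=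
  rowT_of_rngN (N := 65) rfl ((q112_0 RE.rcOK_rowE).2.2.1)

theorem r112_190_98 : RowT rd112 ks112 190 98 0 (loT (prd rd112) t112_190_98) (hiT (prd rd112) t112_190_98) :=
  rowT_of_rngN (N := 65) rfl ((q112_0 RE.rcOK_rowE).2.2.2.1)

theorem r112_190_130 : RowT rd112 ks112 190 130 0 (loT (prd rd112) t112_190_130) (hiT (prd rd112) t112_190_130) :=
  rowT_of_rngN (N := 65) rfl ((q112_0 RE.rcOK_rowE).2.2.2.2.1)

theorem r112_190_200 : RowT rd112 ks112 190 200 0 (loT (prd rd112) t112_190_200) (hiT (prd rd112) t112_190_200) :=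
  rowT_of_rngN (N := 65) rfl ((q112_0 RE.rcOK_rowE).2.2.2.2.2)

theorem r210_190_130 : RowT rd210 ks210 190 130 5000000 (loT (prd rd210) t210_190_130) (hiT (prd rd210) t210_190_130) :=
  rowT_of_rngN (N := 104) rfl ((q210_0 RE.rcOK_rowE).1)

theorem r210_190_200 : RowT rd210 ks210 190 200 5000000 (loT (prd rd210) t210_190_200) (hiT (prd rd210) t210_190_200) :=
  rowT_of_rngN (N := 104) rfl ((q210_0 RE.rcOK_rowE).2.1)

theorem r210_200_130 : RowT rd210 ks210 200 130 5000000 (loT (prd rd210) t210_200_130) (hiT (prd rd210) t210_200_130) :=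
  rowT_of_rngN (N := 104) rfl ((q210_0 RE.rcOK_rowE).2.2.1)

theorem r210_200_200 : RowT rd210 ks210 200 200 5000000 (loT (prd rd210) t210_200_200) (hiT (prd rd210) t210_200_200) :=
  rowT_of_rngN (N := 104) rfl ((q210_0 RE.rcOK_rowE).2.2.2)

theorem r212_190_130 : RowT rd212 ks212 190 130 0 (loT (prd rd212) t212_190_130) (hiT (prd rd212) t212_190_130) :=
  rowT_of_rngN (N := 56) rfl ((q212_0 RE.rcOK_rowE).1)

theorem r212_190_200 : RowT rd212 ks212 190 200 0 (loT (prd rd212) t212_190_200) (hiT (prd rd212) t212_190_200) :=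
  rowT_of_rngN (N := 56) rfl ((q212_0 RE.rcOK_rowE).2.1)

theorem r212_200_130 : RowT rd212 ks212 200 130 0 (loT (prd rd212) t212_200_130) (hiT (prd rd212) t212_200_130) :=
  rowT_of_rngN (N := 56) rfl ((q212_0 RE.rcOK_rowE).2.2.1)

theorem r212_200_200 : RowT rd212 ks212 200 200 0 (loT (prd rd212) t212_200_200) (hiT (prd rd212) t212_200_200) :=
  rowT_of_rngN (N := 56) rfl ((q212_0 RE.rcOK_rowE).2.2.2)

end D
end B1
end Pool.Agent.Lib.MP_6947cd_al
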