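import Pool.Agent.Lib.MP_6947cd_al.Y.All
import Pool.Agent.Lib.MP_6947cd_al.Y.D.I30
import Pool.Agent.Lib.MP_6947cd_al.Y.D.E1

/-!
Problem MP_6947cd_al (Chollet).  CASE B, large second entry: box h in [190, 200], t in [175, 180], g in [130, 200] (unit
1/200), type 1.  Generated.
-/

set_option autoImplicit false
open Finset

namespace Pool.Agent.Lib.MP_6947cd_al
namespace B1
namespace D

open Ent Ent.Pk Fr Fr.WT PkA

/-- trees of the class 0 0 -/
def c00b4_1 : List (List Tr) :=
  [[(.lf [10, 30] [4407301292700, 4407279916244, 4408180106920, 4408357328712, 4407301292700, 4407279916244, 4408180106920, 4408357328712] [4407720695424, 4407746585616, 4408674135184, 4408743430480, 4407720695424, 4407746585616, 4408674135184, 4408743430480] 1200 0 0 0 1121 1008 0 365221 0 0 0 264 862119 968847)]]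

/-- trees of the class 0 1 -/
def c01b4_1 : List (List Tr) :=
  [[(.lf [10, 30] [4408098003516, 4407922106580, 4408476132936, 4408594567772, 4408098003516, 4407922106580, 4408476132936, 4408594567772] [4404501859158, 4404650998006, 4406473236736, 4406615370784, 4404501859158, 4404650998006, 4406473236736, 4406615370784] 0 1431 0 0 1337 920 143660 949217 0 0 0 2075 1749503 0),
   (.lf [10, 30] [4408112757420, 4407976000752, 4408503192944, 4408613464368, 4408112757420, 4407976000752, 4408503192944, 4408613464368] [4404328354072, 4404494780368, 4406356748488, 4406491543144, 4404328354072, 4404494780368, 4406356748488, 4406491543144] 0 1436 0 0 1341 1394 100532 997389 0 0 0 2082 1749503 0)]]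

/-- trees of the class 1 0 -/
def c10b4_1 : List (List Tr) :=
  [[(.sK 499
  (.lf [10, 30] [4404824893166, 4405153187470, 4406648689200, 4406940380776, 4404824893166, 4405153187470, 4406648689200, 4406940380776] [4415799832520, 4415853486992, 4416498194320, 4416546862992, 4415799832520, 4415853486992, 4416498194320, 4416546862992] 0 0 0 0 838 0 198213 40453 0 0 0 0 0 2131099)
  (.sS 20
  (.lf [10, 20] [4404596151320, 4404906270152, 4406341218600, 4406618825388, 4404596151320, 4404906270152, 4406341218600, 4406618825388] [4402738526924, 4402802079380, 4403634188516, 4403719813992, 4402738526924, 4402802079380, 4403634188516, 4403719813992] 0 0 2159 0 741 1813 387288 822929 0 0 0 3475 0 2072986)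
  (.lf [20, 30] [4404596151320, 4404906270152, 4406341218600, 4406618825388, 4404596151320, 4404906270152, 4406341218600, 4406618825388] [4402961708384, 4403023672992, 4403859999496, 4403945216032, 4402961708384, 4403023672992, 4403859999496, 4403945216032] 0 0 2131 0 741 1790 387288 738596 0 0 0 3585 0 1907230)))],
   [(.lf [10, 30] [0, 0, 0, 0, 0, 0, 0, 0] [4421321958400, 4421365096448, 4421891545088, 4421931502592, 4421321958400, 4421365096448, 4421891545088, 4421931502592] 0 0 0 0 0 0 0 0 0 0 0 0 0 2131099)]]

/-- trees of the class 1 1 -/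
def c11b4_1 : List (List Tr) :=
  [[(.lf [10, 30] [4404968896656, 4405286323152, 4406515703536, 4406749678720, 4404968896656, 4405286323152, 4406515703536, 4406749678720] [4405026638604, 4405151827652, 4406393531388, 4406488882174, 4405026638604, 4405151827652, 4406393531388, 4406488882174] 0 0 0 0 780 878 166984 785553 0 0 0 0 0 0),
   (.lf [10, 30] [4404968896656, 4405286323152, 4406515703536, 4406749678720, 4404968896656, 4405286323152, 4406515703536, 4406749678720] [4404893035232, 4405027363616, 4406338664320, 4406439383664, 4404893035232, 4405027363616, 4406338664320, 4406439383664] 0 0 0 0 780 1016 166984 909210 0 0 0 0 0 0)],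
   [(.lf [10, 30] [0, 0, 0, 0, 0, 0, 0, 0] [4408714468352, 4408788631552, 4409652215808, 4409716737024, 4408714468352, 4408788631552, 4409652215808, 4409716737024] 0 0 0 0 0 0 0 0 0 0 0 0 0 0),
   (.lf [10, 30] [0, 0, 0, 0, 0, 0, 0, 0] [4408617507840, 4408692022272, 4409559221248, 4409624001536, 4408617507840, 4408692022272, 4409559221248, 4409624001536] 0 0 0 0 0 0 0 0 0 0 0 0 0 0)]]

/-- the data -/
def b4_1 : BX where
  cI := [(ti30_190_175_0, 365, 0), (ti30_200_175_0, 375, 0), (ti30_190_180_0, 370, 0), (ti30_200_180_0, 380, 0), (ti30_190_175_0, 365, 0), (ti30_200_175_0, 375, 0), (ti30_190_180_0, 370, 0), (ti30_200_180_0, 380, 0)]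
  kj := 102
  kk := 102
  Pj := [⟨⟨rd210, ks210, Ps210, 0, [t210_190_130, t210_200_130, t210_190_200, t210_200_200]⟩, 0, 1480⟩]
  Pk := [⟨⟨rd10, ks10, Ps10, 0, [t10_175_130, t10_180_130, t10_175_200, t10_180_200]⟩, 0, 1480⟩]
  Bj := [⟨⟨rd212, ks212, Ps212, 0, [t212_190_130, t212_200_130, t212_190_200, t212_200_200]⟩, 0, 600⟩,
    ⟨⟨rd210, ks210, Ps210, 1, [t210_190_130, t210_200_130, t210_190_200, t210_200_200]⟩, 600, 1480⟩]
  Bk := [⟨⟨rd12, ks12, Ps12, 0, [t12_175_130, t12_180_130, t12_175_200, t12_180_200]⟩, 0, 600⟩,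
    ⟨⟨rd10, ks10, Ps10, 1, [t10_175_130, t10_180_130, t10_175_200, t10_180_200]⟩, 600, 1480⟩]
  tj := [(30, [10, 30])]
  tk := [(30, [10, 30])]
  nt := []
  c00 := c00b4_1
  c01 := c01b4_1
  c10 := c10b4_1
  c11 := c11b4_1

theorem okb4_1 : b4_1.OK 1 190 200 175 180 130 200 where
  cI := by
    refine ⟨?_, rfl⟩
    intro bh bt bx
    cases bh <;> cases bt <;> cases bx
    · exact ⟨rfl, rfl, ri30_190_175_0⟩
    · exact ⟨rfl, rfl, ri30_190_175_0⟩
    · exact ⟨rfl, rfl, ri30_190_180_0⟩
    · exact ⟨rfl, rfl, ri30_190_180_0⟩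
    · exact ⟨rfl, rfl, ri30_200_175_0⟩
    · exact ⟨rfl, rfl, ri30_200_175_0⟩
    · exact ⟨rfl, rfl, ri30_200_180_0⟩
    · exact ⟨rfl, rfl, ri30_200_180_0⟩
  Pj := by
    intro p hp
    simp only [b4_1, List.mem_cons, List.not_mem_nil, or_false] at hp
    subst hp
    exact edOK cnt210 kn210 r210_190_130 r210_200_130 r210_190_200 r210_200_200
  Pk := by
    intro p hp
    simp only [b4_1, List.mem_cons, List.not_mem_nil, or_false] at hp
    subst hp
    exact edOK cnt10 kn10_175 r10_175_130 r10_180_130 r10_175_200 r10_180_200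
  Bj := by
    intro p hp
    simp only [b4_1, List.mem_cons, List.not_mem_nil, or_false] at hp
    rcases hp with rfl | rfl
    · exact edOK cnt212 kn212 r212_190_130 r212_200_130 r212_190_200 r212_200_200
    · exact edOK cnt210 kn210 (r210_190_130.mono (Nat.zero_le _)) (r210_200_130.mono (Nat.zero_le _)) (r210_190_200.mono (Nat.zero_le _))
        (r210_200_200.mono (Nat.zero_le _))
  Bk := by
    intro p hp
    simp only [b4_1, List.mem_cons, List.not_mem_nil, or_false] at hp
    rcases hp with rfl | rfl
    · exact edOK cnt12 kn12_175 r12_175_130 r12_180_130 r12_175_200 r12_180_200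
    · exact edOK cnt10 kn10_175 (r10_175_130.mono (Nat.zero_le _)) (r10_180_130.mono (Nat.zero_le _)) (r10_175_200.mono (Nat.zero_le _))
        (r10_180_200.mono (Nat.zero_le _))

theorem pb4_1 (bj bk : Bool) : Prob bj bk 190 200 175 180 130 200 1 :=
  probC (A := 256) (O := 4398046511104) okb4_1 (by decide +kernel) bj bk

end D
end B1
end Pool.Agent.Lib.MP_6947cd_al
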