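import Pool.Agent.Lib.MP_6947cd_al.L.ReE
import Pool.Agent.Lib.MP_6947cd_al.Y.D.R2_0
import Pool.Agent.Lib.MP_6947cd_al.Y.D.R2_1

/-!
Problem MP_6947cd_al (Chollet).  CASE B, large second entry: the facts of the tables, type 2.  Generated.
-/

set_option autoImplicit false
open Finset

namespace Pool.Agent.Lib.MP_6947cd_al
namespace B1
namespace D

open Ent Ent.Pk Fr Fr.WT PkA

theorem r20_170_98 : RowT rd20 ks20 170 98 5000000 (loT (prd rd20) t20_170_98) (hiT (prd rd20) t20_170_98) :=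
  rowT_of_rngN (N := 280) rfl ((q20_0 RE.rcOK_rowE).1)

theorem r20_170_130 : RowT rd20 ks20 170 130 5000000 (loT (prd rd20) t20_170_130) (hiT (prd rd20) t20_170_130) :=
  rowT_of_rngN (N := 280) rfl ((q20_0 RE.rcOK_rowE).2.1)

theorem r20_170_200 : RowT rd20 ks20 170 200 5000000 (loT (prd rd20) t20_170_200) (hiT (prd rd20) t20_170_200) :=
  rowT_of_rngN (N := 280) rfl ((q20_0 RE.rcOK_rowE).2.2.1)

theorem r20_175_130 : RowT rd20 ks20 175 130 5000000 (loT (prd rd20) t20_175_130) (hiT (prd rd20) t20_175_130) :=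
  rowT_of_rngN (N := 280) rfl ((q20_0 RE.rcOK_rowE).2.2.2.1)

theorem r20_175_200 : RowT rd20 ks20 175 200 5000000 (loT (prd rd20) t20_175_200) (hiT (prd rd20) t20_175_200) :=
  rowT_of_rngN (N := 280) rfl ((q20_0 RE.rcOK_rowE).2.2.2.2.1)

theorem r20_180_98 : RowT rd20 ks20 180 98 5000000 (loT (prd rd20) t20_180_98) (hiT (prd rd20) t20_180_98) :=
  rowT_of_rngN (N := 280) rfl ((q20_0 RE.rcOK_rowE).2.2.2.2.2.1)

theorem r20_180_130 : RowT rd20 ks20 180 130 5000000 (loT (prd rd20) t20_180_130) (hiT (prd rd20) t20_180_130) :=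
  rowT_of_rngN (N := 280) rfl ((q20_0 RE.rcOK_rowE).2.2.2.2.2.2.1)

theorem r20_180_200 : RowT rd20 ks20 180 200 5000000 (loT (prd rd20) t20_180_200) (hiT (prd rd20) t20_180_200) :=
  rowT_of_rngN (N := 280) rfl ((q20_0 RE.rcOK_rowE).2.2.2.2.2.2.2)

theorem r22_170_98 : RowT rd22 ks22 170 98 0 (loT (prd rd22) t22_170_98) (hiT (prd rd22) t22_170_98) :=
  rowT_of_rngN (N := 77) rfl ((q22_0 RE.rcOK_rowE).1)

theorem r22_170_130 : RowT rd22 ks22 170 130 0 (loT (prd rd22) t22_170_130) (hiT (prd rd22) t22_170_130) :=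
  rowT_of_rngN (N := 77) rfl ((q22_0 RE.rcOK_rowE).2.1)

theorem r22_170_200 : RowT rd22 ks22 170 200 0 (loT (prd rd22) t22_170_200) (hiT (prd rd22) t22_170_200) :=
  rowT_of_rngN (N := 77) rfl ((q22_0 RE.rcOK_rowE).2.2.1)

theorem r22_175_130 : RowT rd22 ks22 175 130 0 (loT (prd rd22) t22_175_130) (hiT (prd rd22) t22_175_130) :=
  rowT_of_rngN (N := 77) rfl ((q22_0 RE.rcOK_rowE).2.2.2.1)

theorem r22_175_200 : RowT rd22 ks22 175 200 0 (loT (prd rd22) t22_175_200) (hiT (prd rd22) t22_175_200) :=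
  rowT_of_rngN (N := 77) rfl ((q22_0 RE.rcOK_rowE).2.2.2.2.1)

theorem r22_180_98 : RowT rd22 ks22 180 98 0 (loT (prd rd22) t22_180_98) (hiT (prd rd22) t22_180_98) :=
  rowT_of_rngN (N := 77) rfl ((q22_0 RE.rcOK_rowE).2.2.2.2.2.1)

theorem r22_180_130 : RowT rd22 ks22 180 130 0 (loT (prd rd22) t22_180_130) (hiT (prd rd22) t22_180_130) :=
  rowT_of_rngN (N := 77) rfl ((q22_0 RE.rcOK_rowE).2.2.2.2.2.2.1)

theorem r22_180_200 : RowT rd22 ks22 180 200 0 (loT (prd rd22) t22_180_200) (hiT (prd rd22) t22_180_200) :=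
  rowT_of_rngN (N := 77) rfl ((q22_0 RE.rcOK_rowE).2.2.2.2.2.2.2)

theorem r120_180_98 : RowT rd120 ks120 180 98 5000000 (loT (prd rd120) t120_180_98) (hiT (prd rd120) t120_180_98) :=
  rowT_of_rngN (N := 250) rfl ((q120_0 RE.rcOK_rowE).1)

theorem r120_180_130 : RowT rd120 ks120 180 130 5000000 (loT (prd rd120) t120_180_130) (hiT (prd rd120) t120_180_130) :=
  rowT_of_rngN (N := 250) rfl ((q120_0 RE.rcOK_rowE).2.1)

theorem r120_180_200 : RowT rd120 ks120 180 200 5000000 (loT (prd rd120) t120_180_200) (hiT (prd rd120) t120_180_200) :=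
  rowT_of_rngN (N := 250) rfl ((q120_0 RE.rcOK_rowE).2.2.1)

theorem r120_190_98 : RowT rd120 ks120 190 98 5000000 (loT (prd rd120) t120_190_98) (hiT (prd rd120) t120_190_98) :=
  rowT_of_rngN (N := 250) rfl ((q120_0 RE.rcOK_rowE).2.2.2.1)

theorem r120_190_130 : RowT rd120 ks120 190 130 5000000 (loT (prd rd120) t120_190_130) (hiT (prd rd120) t120_190_130) :=
  rowT_of_rngN (N := 250) rfl ((q120_0 RE.rcOK_rowE).2.2.2.2.1)

theorem r120_190_200 : RowT rd120 ks120 190 200 5000000 (loT (prd rd120) t120_190_200) (hiT (prd rd120) t120_190_200) :=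
  rowT_of_rngN (N := 250) rfl ((q120_0 RE.rcOK_rowE).2.2.2.2.2)

theorem r122_180_98 : RowT rd122 ks122 180 98 0 (loT (prd rd122) t122_180_98) (hiT (prd rd122) t122_180_98) :=
  rowT_of_rngN (N := 88) rfl ((q122_0 RE.rcOK_rowE).1)

theorem r122_180_130 : RowT rd122 ks122 180 130 0 (loT (prd rd122) t122_180_130) (hiT (prd rd122) t122_180_130) :=
  rowT_of_rngN (N := 88) rfl ((q122_0 RE.rcOK_rowE).2.1)

theorem r122_180_200 : RowT rd122 ks122 180 200 0 (loT (prd rd122) t122_180_200) (hiT (prd rd122) t122_180_200) :=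
  rowT_of_rngN (N := 88) rfl ((q122_0 RE.rcOK_rowE).2.2.1)

theorem r122_190_98 : RowT rd122 ks122 190 98 0 (loT (prd rd122) t122_190_98) (hiT (prd rd122) t122_190_98) :=
  rowT_of_rngN (N := 88) rfl ((q122_0 RE.rcOK_rowE).2.2.2.1)

theorem r122_190_130 : RowT rd122 ks122 190 130 0 (loT (prd rd122) t122_190_130) (hiT (prd rd122) t122_190_130) :=
  rowT_of_rngN (N := 88) rfl ((q122_0 RE.rcOK_rowE).2.2.2.2.1)

theorem r122_190_200 : RowT rd122 ks122 190 200 0 (loT (prd rd122) t122_190_200) (hiT (prd rd122) t122_190_200) :=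
  rowT_of_rngN (N := 88) rfl ((q122_0 RE.rcOK_rowE).2.2.2.2.2)

theorem r220_190_130 : RowT rd220 ks220 190 130 5000000 (loT (prd rd220) t220_190_130) (hiT (prd rd220) t220_190_130) :=
  rowT_of_rngN (N := 260) rfl ((q220_0 RE.rcOK_rowE).1)

theorem r220_190_200 : RowT rd220 ks220 190 200 5000000 (loT (prd rd220) t220_190_200) (hiT (prd rd220) t220_190_200) :=
  rowT_of_rngN (N := 260) rfl ((q220_0 RE.rcOK_rowE).2.1)

theorem r220_200_130 : RowT rd220 ks220 200 130 5000000 (loT (prd rd220) t220_200_130) (hiT (prd rd220) t220_200_130) :=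
  rowT_of_rngN (N := 260) rfl ((q220_0 RE.rcOK_rowE).2.2.1)

theorem r220_200_200 : RowT rd220 ks220 200 200 5000000 (loT (prd rd220) t220_200_200) (hiT (prd rd220) t220_200_200) :=
  rowT_of_rngN (N := 260) rfl ((q220_0 RE.rcOK_rowE).2.2.2)

theorem r222_190_130 : RowT rd222 ks222 190 130 0 (loT (prd rd222) t222_190_130) (hiT (prd rd222) t222_190_130) :=
  rowT_of_rngN (N := 126) rfl ((q222_0 RE.rcOK_rowE).1)

theorem r222_190_200 : RowT rd222 ks222 190 200 0 (loT (prd rd222) t222_190_200) (hiT (prd rd222) t222_190_200) :=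
  rowT_of_rngN (N := 126) rfl ((q222_0 RE.rcOK_rowE).2.1)

theorem r222_200_130 : RowT rd222 ks222 200 130 0 (loT (prd rd222) t222_200_130) (hiT (prd rd222) t222_200_130) :=
  rowT_of_rngN (N := 126) rfl ((q222_0 RE.rcOK_rowE).2.2.1)

theorem r222_200_200 : RowT rd222 ks222 200 200 0 (loT (prd rd222) t222_200_200) (hiT (prd rd222) t222_200_200) :=
  rowT_of_rngN (N := 126) rfl ((q222_0 RE.rcOK_rowE).2.2.2)

end D
end B1
end Pool.Agent.Lib.MP_6947cd_al
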