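import Pool.Agent.Lib.MP_6947cd_al.L.ReE
import Pool.Agent.Lib.MP_6947cd_al.Y.D.R3_0
import Pool.Agent.Lib.MP_6947cd_al.Y.D.R3_1

/-!
Problem MP_6947cd_al (Chollet).  CASE B, large second entry: the facts of the tables, type 3.  Generated.
-/

set_option autoImplicit false
open Finset

namespace Pool.Agent.Lib.MP_6947cd_al
namespace B1
namespace D

open Ent Ent.Pk Fr Fr.WT PkA

theorem r30_170_98 : RowT rd30 ks30 170 98 5000000 (loT (prd rd30) t30_170_98) (hiT (prd rd30) t30_170_98) :=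
  rowT_of_rngN (N := 176) rfl ((q30_0 RE.rcOK_rowE).1)

theorem r30_170_130 : RowT rd30 ks30 170 130 5000000 (loT (prd rd30) t30_170_130) (hiT (prd rd30) t30_170_130) :=
  rowT_of_rngN (N := 176) rfl ((q30_0 RE.rcOK_rowE).2.1)

theorem r30_170_200 : RowT rd30 ks30 170 200 5000000 (loT (prd rd30) t30_170_200) (hiT (prd rd30) t30_170_200) :=
  rowT_of_rngN (N := 176) rfl ((q30_0 RE.rcOK_rowE).2.2.1)

theorem r30_175_130 : RowT rd30 ks30 175 130 5000000 (loT (prd rd30) t30_175_130) (hiT (prd rd30) t30_175_130) :=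
  rowT_of_rngN (N := 176) rfl ((q30_0 RE.rcOK_rowE).2.2.2.1)

theorem r30_175_200 : RowT rd30 ks30 175 200 5000000 (loT (prd rd30) t30_175_200) (hiT (prd rd30) t30_175_200) :=
  rowT_of_rngN (N := 176) rfl ((q30_0 RE.rcOK_rowE).2.2.2.2.1)

theorem r30_180_98 : RowT rd30 ks30 180 98 5000000 (loT (prd rd30) t30_180_98) (hiT (prd rd30) t30_180_98) :=
  rowT_of_rngN (N := 176) rfl ((q30_0 RE.rcOK_rowE).2.2.2.2.2.1)

theorem r30_180_130 : RowT rd30 ks30 180 130 5000000 (loT (prd rd30) t30_180_130) (hiT (prd rd30) t30_180_130) :=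
  rowT_of_rngN (N := 176) rfl ((q30_0 RE.rcOK_rowE).2.2.2.2.2.2.1)

theorem r30_180_200 : RowT rd30 ks30 180 200 5000000 (loT (prd rd30) t30_180_200) (hiT (prd rd30) t30_180_200) :=
  rowT_of_rngN (N := 176) rfl ((q30_0 RE.rcOK_rowE).2.2.2.2.2.2.2)

theorem r31_170_98 : RowT rd31 ks31 170 98 5000000 (loT (prd rd31) t31_170_98) (hiT (prd rd31) t31_170_98) :=
  rowT_of_rngN (N := 272) rfl ((q31_0 RE.rcOK_rowE).1)

theorem r31_170_130 : RowT rd31 ks31 170 130 5000000 (loT (prd rd31) t31_170_130) (hiT (prd rd31) t31_170_130) :=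
  rowT_of_rngN (N := 272) rfl ((q31_0 RE.rcOK_rowE).2.1)

theorem r31_170_200 : RowT rd31 ks31 170 200 5000000 (loT (prd rd31) t31_170_200) (hiT (prd rd31) t31_170_200) :=
  rowT_of_rngN (N := 272) rfl ((q31_0 RE.rcOK_rowE).2.2.1)

theorem r31_175_130 : RowT rd31 ks31 175 130 5000000 (loT (prd rd31) t31_175_130) (hiT (prd rd31) t31_175_130) :=
  rowT_of_rngN (N := 272) rfl ((q31_0 RE.rcOK_rowE).2.2.2.1)

theorem r31_175_200 : RowT rd31 ks31 175 200 5000000 (loT (prd rd31) t31_175_200) (hiT (prd rd31) t31_175_200) :=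
  rowT_of_rngN (N := 272) rfl ((q31_0 RE.rcOK_rowE).2.2.2.2.1)

theorem r31_180_98 : RowT rd31 ks31 180 98 5000000 (loT (prd rd31) t31_180_98) (hiT (prd rd31) t31_180_98) :=
  rowT_of_rngN (N := 272) rfl ((q31_0 RE.rcOK_rowE).2.2.2.2.2.1)

theorem r31_180_130 : RowT rd31 ks31 180 130 5000000 (loT (prd rd31) t31_180_130) (hiT (prd rd31) t31_180_130) :=
  rowT_of_rngN (N := 272) rfl ((q31_0 RE.rcOK_rowE).2.2.2.2.2.2.1)

theorem r31_180_200 : RowT rd31 ks31 180 200 5000000 (loT (prd rd31) t31_180_200) (hiT (prd rd31) t31_180_200) :=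
  rowT_of_rngN (N := 272) rfl ((q31_0 RE.rcOK_rowE).2.2.2.2.2.2.2)

theorem r32_170_98 : RowT rd32 ks32 170 98 0 (loT (prd rd32) t32_170_98) (hiT (prd rd32) t32_170_98) :=
  rowT_of_rngN (N := 756) rfl ((q32_0 RE.rcOK_rowE).1)

theorem r32_170_130 : RowT rd32 ks32 170 130 0 (loT (prd rd32) t32_170_130) (hiT (prd rd32) t32_170_130) :=
  rowT_of_rngN (N := 756) rfl ((q32_0 RE.rcOK_rowE).2.1)

theorem r32_170_200 : RowT rd32 ks32 170 200 0 (loT (prd rd32) t32_170_200) (hiT (prd rd32) t32_170_200) :=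
  rowT_of_rngN (N := 756) rfl ((q32_0 RE.rcOK_rowE).2.2.1)

theorem r32_175_130 : RowT rd32 ks32 175 130 0 (loT (prd rd32) t32_175_130) (hiT (prd rd32) t32_175_130) :=
  rowT_of_rngN (N := 756) rfl ((q32_0 RE.rcOK_rowE).2.2.2.1)

theorem r32_175_200 : RowT rd32 ks32 175 200 0 (loT (prd rd32) t32_175_200) (hiT (prd rd32) t32_175_200) :=
  rowT_of_rngN (N := 756) rfl ((q32_0 RE.rcOK_rowE).2.2.2.2.1)

theorem r32_180_98 : RowT rd32 ks32 180 98 0 (loT (prd rd32) t32_180_98) (hiT (prd rd32) t32_180_98) :=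
  rowT_of_rngN (N := 756) rfl ((q32_0 RE.rcOK_rowE).2.2.2.2.2.1)

theorem r32_180_130 : RowT rd32 ks32 180 130 0 (loT (prd rd32) t32_180_130) (hiT (prd rd32) t32_180_130) :=
  rowT_of_rngN (N := 756) rfl ((q32_0 RE.rcOK_rowE).2.2.2.2.2.2.1)

theorem r32_180_200 : RowT rd32 ks32 180 200 0 (loT (prd rd32) t32_180_200) (hiT (prd rd32) t32_180_200) :=
  rowT_of_rngN (N := 756) rfl ((q32_0 RE.rcOK_rowE).2.2.2.2.2.2.2)

theorem r130_180_98 : RowT rd130 ks130 180 98 5000000 (loT (prd rd130) t130_180_98) (hiT (prd rd130) t130_180_98) :=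
  rowT_of_rngN (N := 126) rfl ((q130_0 RE.rcOK_rowE).1)

theorem r130_180_130 : RowT rd130 ks130 180 130 5000000 (loT (prd rd130) t130_180_130) (hiT (prd rd130) t130_180_130) :=
  rowT_of_rngN (N := 126) rfl ((q130_0 RE.rcOK_rowE).2.1)

theorem r130_180_200 : RowT rd130 ks130 180 200 5000000 (loT (prd rd130) t130_180_200) (hiT (prd rd130) t130_180_200) :=
  rowT_of_rngN (N := 126) rfl ((q130_0 RE.rcOK_rowE).2.2.1)

theorem r130_190_98 : RowT rd130 ks130 190 98 5000000 (loT (prd rd130) t130_190_98) (hiT (prd rd130) t130_190_98) :=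
  rowT_of_rngN (N := 126) rfl ((q130_0 RE.rcOK_rowE).2.2.2.1)

theorem r130_190_130 : RowT rd130 ks130 190 130 5000000 (loT (prd rd130) t130_190_130) (hiT (prd rd130) t130_190_130) :=
  rowT_of_rngN (N := 126) rfl ((q130_0 RE.rcOK_rowE).2.2.2.2.1)

theorem r130_190_200 : RowT rd130 ks130 190 200 5000000 (loT (prd rd130) t130_190_200) (hiT (prd rd130) t130_190_200) :=
  rowT_of_rngN (N := 126) rfl ((q130_0 RE.rcOK_rowE).2.2.2.2.2)

theorem r131_180_98 : RowT rd131 ks131 180 98 5000000 (loT (prd rd131) t131_180_98) (hiT (prd rd131) t131_180_98) :=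
  rowT_of_rngN (N := 238) rfl ((q131_0 RE.rcOK_rowE).1)

theorem r131_180_130 : RowT rd131 ks131 180 130 5000000 (loT (prd rd131) t131_180_130) (hiT (prd rd131) t131_180_130) :=
  rowT_of_rngN (N := 238) rfl ((q131_0 RE.rcOK_rowE).2.1)

theorem r131_180_200 : RowT rd131 ks131 180 200 5000000 (loT (prd rd131) t131_180_200) (hiT (prd rd131) t131_180_200) :=
  rowT_of_rngN (N := 238) rfl ((q131_0 RE.rcOK_rowE).2.2.1)

theorem r131_190_98 : RowT rd131 ks131 190 98 5000000 (loT (prd rd131) t131_190_98) (hiT (prd rd131) t131_190_98) :=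
  rowT_of_rngN (N := 238) rfl ((q131_0 RE.rcOK_rowE).2.2.2.1)

theorem r131_190_130 : RowT rd131 ks131 190 130 5000000 (loT (prd rd131) t131_190_130) (hiT (prd rd131) t131_190_130) :=
  rowT_of_rngN (N := 238) rfl ((q131_0 RE.rcOK_rowE).2.2.2.2.1)

theorem r131_190_200 : RowT rd131 ks131 190 200 5000000 (loT (prd rd131) t131_190_200) (hiT (prd rd131) t131_190_200) :=
  rowT_of_rngN (N := 238) rfl ((q131_0 RE.rcOK_rowE).2.2.2.2.2)

theorem r132_180_98 : RowT rd132 ks132 180 98 0 (loT (prd rd132) t132_180_98) (hiT (prd rd132) t132_180_98) :=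
  rowT_of_rngN (N := 864) rfl ((q132_0 RE.rcOK_rowE).1)

theorem r132_180_130 : RowT rd132 ks132 180 130 0 (loT (prd rd132) t132_180_130) (hiT (prd rd132) t132_180_130) :=
  rowT_of_rngN (N := 864) rfl ((q132_0 RE.rcOK_rowE).2.1)

theorem r132_180_200 : RowT rd132 ks132 180 200 0 (loT (prd rd132) t132_180_200) (hiT (prd rd132) t132_180_200) :=
  rowT_of_rngN (N := 864) rfl ((q132_0 RE.rcOK_rowE).2.2.1)

theorem r132_190_98 : RowT rd132 ks132 190 98 0 (loT (prd rd132) t132_190_98) (hiT (prd rd132) t132_190_98) :=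
  rowT_of_rngN (N := 864) rfl ((q132_0 RE.rcOK_rowE).2.2.2.1)

theorem r132_190_130 : RowT rd132 ks132 190 130 0 (loT (prd rd132) t132_190_130) (hiT (prd rd132) t132_190_130) :=
  rowT_of_rngN (N := 864) rfl ((q132_0 RE.rcOK_rowE).2.2.2.2.1)

theorem r132_190_200 : RowT rd132 ks132 190 200 0 (loT (prd rd132) t132_190_200) (hiT (prd rd132) t132_190_200) :=
  rowT_of_rngN (N := 864) rfl ((q132_0 RE.rcOK_rowE).2.2.2.2.2)

theorem r230_190_130 : RowT rd230 ks230 190 130 5000000 (loT (prd rd230) t230_190_130) (hiT (prd rd230) t230_190_130) :=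
  rowT_of_rngN (N := 138) rfl ((q230_0 RE.rcOK_rowE).1)

theorem r230_190_200 : RowT rd230 ks230 190 200 5000000 (loT (prd rd230) t230_190_200) (hiT (prd rd230) t230_190_200) :=
  rowT_of_rngN (N := 138) rfl ((q230_0 RE.rcOK_rowE).2.1)

theorem r230_200_130 : RowT rd230 ks230 200 130 5000000 (loT (prd rd230) t230_200_130) (hiT (prd rd230) t230_200_130) :=
  rowT_of_rngN (N := 138) rfl ((q230_0 RE.rcOK_rowE).2.2.1)

theorem r230_200_200 : RowT rd230 ks230 200 200 5000000 (loT (prd rd230) t230_200_200) (hiT (prd rd230) t230_200_200) :=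
  rowT_of_rngN (N := 138) rfl ((q230_0 RE.rcOK_rowE).2.2.2)

theorem r231_190_130 : RowT rd231 ks231 190 130 5000000 (loT (prd rd231) t231_190_130) (hiT (prd rd231) t231_190_130) :=
  rowT_of_rngN (N := 198) rfl ((q231_0 RE.rcOK_rowE).1)

theorem r231_190_200 : RowT rd231 ks231 190 200 5000000 (loT (prd rd231) t231_190_200) (hiT (prd rd231) t231_190_200) :=
  rowT_of_rngN (N := 198) rfl ((q231_0 RE.rcOK_rowE).2.1)

theorem r231_200_130 : RowT rd231 ks231 200 130 5000000 (loT (prd rd231) t231_200_130) (hiT (prd rd231) t231_200_130) :=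
  rowT_of_rngN (N := 198) rfl ((q231_0 RE.rcOK_rowE).2.2.1)

theorem r231_200_200 : RowT rd231 ks231 200 200 5000000 (loT (prd rd231) t231_200_200) (hiT (prd rd231) t231_200_200) :=
  rowT_of_rngN (N := 198) rfl ((q231_0 RE.rcOK_rowE).2.2.2)

theorem r232_190_130 : RowT rd232 ks232 190 130 0 (loT (prd rd232) t232_190_130) (hiT (prd rd232) t232_190_130) :=
  rowT_of_rngN (N := 108) rfl ((q232_0 RE.rcOK_rowE).1)

theorem r232_190_200 : RowT rd232 ks232 190 200 0 (loT (prd rd232) t232_190_200) (hiT (prd rd232) t232_190_200) :=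
  rowT_of_rngN (N := 108) rfl ((q232_0 RE.rcOK_rowE).2.1)

theorem r232_200_130 : RowT rd232 ks232 200 130 0 (loT (prd rd232) t232_200_130) (hiT (prd rd232) t232_200_130) :=
  rowT_of_rngN (N := 108) rfl ((q232_0 RE.rcOK_rowE).2.2.1)

theorem r232_200_200 : RowT rd232 ks232 200 200 0 (loT (prd rd232) t232_200_200) (hiT (prd rd232) t232_200_200) :=
  rowT_of_rngN (N := 108) rfl ((q232_0 RE.rcOK_rowE).2.2.2)

end D
end B1
end Pool.Agent.Lib.MP_6947cd_al
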