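import Pool.Agent.Lib.MP_6947cd_al.L.ReE
import Pool.Agent.Lib.MP_6947cd_al.Y.D.R4_0
import Pool.Agent.Lib.MP_6947cd_al.Y.D.R4_1
import Pool.Agent.Lib.MP_6947cd_al.Y.D.R4_2
import Pool.Agent.Lib.MP_6947cd_al.Y.D.R4_3

/-!
Problem MP_6947cd_al (Chollet).  CASE B, large second entry: the facts of the tables, type 4.  Generated.
-/

set_option autoImplicit false
open Finset

namespace Pool.Agent.Lib.MP_6947cd_al
namespace B1
namespace D

open Ent Ent.Pk Fr Fr.WT PkA

theorem r40_170_98 : RowT rd40 ks40 170 98 5000000 (loT (prd rd40) t40_170_98) (hiT (prd rd40) t40_170_98) :=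
  rowT_of_rngN (N := 1250) rfl ((q40_0 RE.rcOK_rowE).1)

theorem r40_170_130 : RowT rd40 ks40 170 130 5000000 (loT (prd rd40) t40_170_130) (hiT (prd rd40) t40_170_130) :=
  rowT_of_rngN (N := 1250) rfl ((q40_0 RE.rcOK_rowE).2.1)

theorem r40_170_200 : RowT rd40 ks40 170 200 5000000 (loT (prd rd40) t40_170_200) (hiT (prd rd40) t40_170_200) :=
  rowT_of_rngN (N := 1250) rfl ((q40_0 RE.rcOK_rowE).2.2.1)

theorem r40_175_130 : RowT rd40 ks40 175 130 5000000 (loT (prd rd40) t40_175_130) (hiT (prd rd40) t40_175_130) :=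
  rowT_of_rngN (N := 1250) rfl ((q40_0 RE.rcOK_rowE).2.2.2.1)

theorem r40_175_200 : RowT rd40 ks40 175 200 5000000 (loT (prd rd40) t40_175_200) (hiT (prd rd40) t40_175_200) :=
  rowT_of_rngN (N := 1250) rfl ((q40_0 RE.rcOK_rowE).2.2.2.2.1)

theorem r40_180_98 : RowT rd40 ks40 180 98 5000000 (loT (prd rd40) t40_180_98) (hiT (prd rd40) t40_180_98) :=
  rowT_of_rngN (N := 1250) rfl ((q40_0 RE.rcOK_rowE).2.2.2.2.2.1)

theorem r40_180_130 : RowT rd40 ks40 180 130 5000000 (loT (prd rd40) t40_180_130) (hiT (prd rd40) t40_180_130) :=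
  rowT_of_rngN (N := 1250) rfl ((q40_0 RE.rcOK_rowE).2.2.2.2.2.2.glue (q40_1 RE.rcOK_rowE).1)

theorem r40_180_200 : RowT rd40 ks40 180 200 5000000 (loT (prd rd40) t40_180_200) (hiT (prd rd40) t40_180_200) :=
  rowT_of_rngN (N := 1250) rfl ((q40_1 RE.rcOK_rowE).2)

theorem r41_170_98 : RowT rd41 ks41 170 98 5000000 (loT (prd rd41) t41_170_98) (hiT (prd rd41) t41_170_98) :=
  rowT_of_rngN (N := 333) rfl ((q41_0 RE.rcOK_rowE).1)

theorem r41_170_130 : RowT rd41 ks41 170 130 5000000 (loT (prd rd41) t41_170_130) (hiT (prd rd41) t41_170_130) :=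
  rowT_of_rngN (N := 333) rfl ((q41_0 RE.rcOK_rowE).2.1)

theorem r41_170_200 : RowT rd41 ks41 170 200 5000000 (loT (prd rd41) t41_170_200) (hiT (prd rd41) t41_170_200) :=
  rowT_of_rngN (N := 333) rfl ((q41_0 RE.rcOK_rowE).2.2.1)

theorem r41_175_130 : RowT rd41 ks41 175 130 5000000 (loT (prd rd41) t41_175_130) (hiT (prd rd41) t41_175_130) :=
  rowT_of_rngN (N := 333) rfl ((q41_0 RE.rcOK_rowE).2.2.2.1)

theorem r41_175_200 : RowT rd41 ks41 175 200 5000000 (loT (prd rd41) t41_175_200) (hiT (prd rd41) t41_175_200) :=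
  rowT_of_rngN (N := 333) rfl ((q41_0 RE.rcOK_rowE).2.2.2.2.1)

theorem r41_180_98 : RowT rd41 ks41 180 98 5000000 (loT (prd rd41) t41_180_98) (hiT (prd rd41) t41_180_98) :=
  rowT_of_rngN (N := 333) rfl ((q41_0 RE.rcOK_rowE).2.2.2.2.2.1)

theorem r41_180_130 : RowT rd41 ks41 180 130 5000000 (loT (prd rd41) t41_180_130) (hiT (prd rd41) t41_180_130) :=
  rowT_of_rngN (N := 333) rfl ((q41_0 RE.rcOK_rowE).2.2.2.2.2.2.1)

theorem r41_180_200 : RowT rd41 ks41 180 200 5000000 (loT (prd rd41) t41_180_200) (hiT (prd rd41) t41_180_200) :=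
  rowT_of_rngN (N := 333) rfl ((q41_0 RE.rcOK_rowE).2.2.2.2.2.2.2)

theorem r42_170_98 : RowT rd42 ks42 170 98 0 (loT (prd rd42) t42_170_98) (hiT (prd rd42) t42_170_98) :=
  rowT_of_rngN (N := 765) rfl ((q42_0 RE.rcOK_rowE).1)

theorem r42_170_130 : RowT rd42 ks42 170 130 0 (loT (prd rd42) t42_170_130) (hiT (prd rd42) t42_170_130) :=
  rowT_of_rngN (N := 765) rfl ((q42_0 RE.rcOK_rowE).2.1)

theorem r42_170_200 : RowT rd42 ks42 170 200 0 (loT (prd rd42) t42_170_200) (hiT (prd rd42) t42_170_200) :=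
  rowT_of_rngN (N := 765) rfl ((q42_0 RE.rcOK_rowE).2.2.1)

theorem r42_175_130 : RowT rd42 ks42 175 130 0 (loT (prd rd42) t42_175_130) (hiT (prd rd42) t42_175_130) :=
  rowT_of_rngN (N := 765) rfl ((q42_0 RE.rcOK_rowE).2.2.2.1)

theorem r42_175_200 : RowT rd42 ks42 175 200 0 (loT (prd rd42) t42_175_200) (hiT (prd rd42) t42_175_200) :=
  rowT_of_rngN (N := 765) rfl ((q42_0 RE.rcOK_rowE).2.2.2.2.1)

theorem r42_180_98 : RowT rd42 ks42 180 98 0 (loT (prd rd42) t42_180_98) (hiT (prd rd42) t42_180_98) :=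
  rowT_of_rngN (N := 765) rfl ((q42_0 RE.rcOK_rowE).2.2.2.2.2.1)

theorem r42_180_130 : RowT rd42 ks42 180 130 0 (loT (prd rd42) t42_180_130) (hiT (prd rd42) t42_180_130) :=
  rowT_of_rngN (N := 765) rfl ((q42_0 RE.rcOK_rowE).2.2.2.2.2.2.1)

theorem r42_180_200 : RowT rd42 ks42 180 200 0 (loT (prd rd42) t42_180_200) (hiT (prd rd42) t42_180_200) :=
  rowT_of_rngN (N := 765) rfl ((q42_0 RE.rcOK_rowE).2.2.2.2.2.2.2)

theorem r140_180_98 : RowT rd140 ks140 180 98 5000000 (loT (prd rd140) t140_180_98) (hiT (prd rd140) t140_180_98) :=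
  rowT_of_rngN (N := 144) rfl ((q140_0 RE.rcOK_rowE).1)

theorem r140_180_130 : RowT rd140 ks140 180 130 5000000 (loT (prd rd140) t140_180_130) (hiT (prd rd140) t140_180_130) :=
  rowT_of_rngN (N := 144) rfl ((q140_0 RE.rcOK_rowE).2.1)

theorem r140_180_200 : RowT rd140 ks140 180 200 5000000 (loT (prd rd140) t140_180_200) (hiT (prd rd140) t140_180_200) :=
  rowT_of_rngN (N := 144) rfl ((q140_0 RE.rcOK_rowE).2.2.1)

theorem r140_190_98 : RowT rd140 ks140 190 98 5000000 (loT (prd rd140) t140_190_98) (hiT (prd rd140) t140_190_98) :=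
  rowT_of_rngN (N := 144) rfl ((q140_0 RE.rcOK_rowE).2.2.2.1)

theorem r140_190_130 : RowT rd140 ks140 190 130 5000000 (loT (prd rd140) t140_190_130) (hiT (prd rd140) t140_190_130) :=
  rowT_of_rngN (N := 144) rfl ((q140_0 RE.rcOK_rowE).2.2.2.2.1)

theorem r140_190_200 : RowT rd140 ks140 190 200 5000000 (loT (prd rd140) t140_190_200) (hiT (prd rd140) t140_190_200) :=
  rowT_of_rngN (N := 144) rfl ((q140_0 RE.rcOK_rowE).2.2.2.2.2)

theorem r141_180_98 : RowT rd141 ks141 180 98 5000000 (loT (prd rd141) t141_180_98) (hiT (prd rd141) t141_180_98) :=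
  rowT_of_rngN (N := 204) rfl ((q141_0 RE.rcOK_rowE).1)

theorem r141_180_130 : RowT rd141 ks141 180 130 5000000 (loT (prd rd141) t141_180_130) (hiT (prd rd141) t141_180_130) :=
  rowT_of_rngN (N := 204) rfl ((q141_0 RE.rcOK_rowE).2.1)

theorem r141_180_200 : RowT rd141 ks141 180 200 5000000 (loT (prd rd141) t141_180_200) (hiT (prd rd141) t141_180_200) :=
  rowT_of_rngN (N := 204) rfl ((q141_0 RE.rcOK_rowE).2.2.1)

theorem r141_190_98 : RowT rd141 ks141 190 98 5000000 (loT (prd rd141) t141_190_98) (hiT (prd rd141) t141_190_98) :=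
  rowT_of_rngN (N := 204) rfl ((q141_0 RE.rcOK_rowE).2.2.2.1)

theorem r141_190_130 : RowT rd141 ks141 190 130 5000000 (loT (prd rd141) t141_190_130) (hiT (prd rd141) t141_190_130) :=
  rowT_of_rngN (N := 204) rfl ((q141_0 RE.rcOK_rowE).2.2.2.2.1)

theorem r141_190_200 : RowT rd141 ks141 190 200 5000000 (loT (prd rd141) t141_190_200) (hiT (prd rd141) t141_190_200) :=
  rowT_of_rngN (N := 204) rfl ((q141_0 RE.rcOK_rowE).2.2.2.2.2)

theorem r142_180_98 : RowT rd142 ks142 180 98 0 (loT (prd rd142) t142_180_98) (hiT (prd rd142) t142_180_98) :=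
  rowT_of_rngN (N := 760) rfl ((q142_0 RE.rcOK_rowE).1)

theorem r142_180_130 : RowT rd142 ks142 180 130 0 (loT (prd rd142) t142_180_130) (hiT (prd rd142) t142_180_130) :=
  rowT_of_rngN (N := 760) rfl ((q142_0 RE.rcOK_rowE).2.1)

theorem r142_180_200 : RowT rd142 ks142 180 200 0 (loT (prd rd142) t142_180_200) (hiT (prd rd142) t142_180_200) :=
  rowT_of_rngN (N := 760) rfl ((q142_0 RE.rcOK_rowE).2.2.1)

theorem r142_190_98 : RowT rd142 ks142 190 98 0 (loT (prd rd142) t142_190_98) (hiT (prd rd142) t142_190_98) :=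
  rowT_of_rngN (N := 760) rfl ((q142_0 RE.rcOK_rowE).2.2.2.1)

theorem r142_190_130 : RowT rd142 ks142 190 130 0 (loT (prd rd142) t142_190_130) (hiT (prd rd142) t142_190_130) :=
  rowT_of_rngN (N := 760) rfl ((q142_0 RE.rcOK_rowE).2.2.2.2.1)

theorem r142_190_200 : RowT rd142 ks142 190 200 0 (loT (prd rd142) t142_190_200) (hiT (prd rd142) t142_190_200) :=
  rowT_of_rngN (N := 760) rfl ((q142_0 RE.rcOK_rowE).2.2.2.2.2)

theorem r240_190_130 : RowT rd240 ks240 190 130 5000000 (loT (prd rd240) t240_190_130) (hiT (prd rd240) t240_190_130) :=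
  rowT_of_rngN (N := 115) rfl ((q240_0 RE.rcOK_rowE).1)

theorem r240_190_200 : RowT rd240 ks240 190 200 5000000 (loT (prd rd240) t240_190_200) (hiT (prd rd240) t240_190_200) :=
  rowT_of_rngN (N := 115) rfl ((q240_0 RE.rcOK_rowE).2.1)

theorem r240_200_130 : RowT rd240 ks240 200 130 5000000 (loT (prd rd240) t240_200_130) (hiT (prd rd240) t240_200_130) :=
  rowT_of_rngN (N := 115) rfl ((q240_0 RE.rcOK_rowE).2.2.1)

theorem r240_200_200 : RowT rd240 ks240 200 200 5000000 (loT (prd rd240) t240_200_200) (hiT (prd rd240) t240_200_200) :=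
  rowT_of_rngN (N := 115) rfl ((q240_0 RE.rcOK_rowE).2.2.2)

theorem r241_190_130 : RowT rd241 ks241 190 130 5000000 (loT (prd rd241) t241_190_130) (hiT (prd rd241) t241_190_130) :=
  rowT_of_rngN (N := 165) rfl ((q241_0 RE.rcOK_rowE).1)

theorem r241_190_200 : RowT rd241 ks241 190 200 5000000 (loT (prd rd241) t241_190_200) (hiT (prd rd241) t241_190_200) :=
  rowT_of_rngN (N := 165) rfl ((q241_0 RE.rcOK_rowE).2.1)

theorem r241_200_130 : RowT rd241 ks241 200 130 5000000 (loT (prd rd241) t241_200_130) (hiT (prd rd241) t241_200_130) :=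
  rowT_of_rngN (N := 165) rfl ((q241_0 RE.rcOK_rowE).2.2.1)

theorem r241_200_200 : RowT rd241 ks241 200 200 5000000 (loT (prd rd241) t241_200_200) (hiT (prd rd241) t241_200_200) :=
  rowT_of_rngN (N := 165) rfl ((q241_0 RE.rcOK_rowE).2.2.2)

theorem r242_190_130 : RowT rd242 ks242 190 130 0 (loT (prd rd242) t242_190_130) (hiT (prd rd242) t242_190_130) :=
  rowT_of_rngN (N := 630) rfl ((q242_0 RE.rcOK_rowE).1)

theorem r242_190_200 : RowT rd242 ks242 190 200 0 (loT (prd rd242) t242_190_200) (hiT (prd rd242) t242_190_200) :=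
  rowT_of_rngN (N := 630) rfl ((q242_0 RE.rcOK_rowE).2.1)

theorem r242_200_130 : RowT rd242 ks242 200 130 0 (loT (prd rd242) t242_200_130) (hiT (prd rd242) t242_200_130) :=
  rowT_of_rngN (N := 630) rfl ((q242_0 RE.rcOK_rowE).2.2.1)

theorem r242_200_200 : RowT rd242 ks242 200 200 0 (loT (prd rd242) t242_200_200) (hiT (prd rd242) t242_200_200) :=
  rowT_of_rngN (N := 630) rfl ((q242_0 RE.rcOK_rowE).2.2.2)

end D
end B1
end Pool.Agent.Lib.MP_6947cd_al
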